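import Pool.Agent.H465.PT.BC
import Pool.Agent.H465.NF.E
import Pool.Agent.H465.NF.F
import Pool.Agent.Results.MP_fb225e_nt.ZerosOfBoundedHeight

/-!
# A law of Brauer-Siegel type for the leading coefficient of `L(E/K, s)` at `s = 1`

Let `L^*(E/K) = lim (s - 1)^(-r) L(E/K, s)`, `r = ord_{s=1} L(E/K, s)`, be the leading coefficient
of the L-function of an elliptic curve `E` over a number field `K`.  According to the conjecture (Q1)
`L^*(E/K) = #Ш R · G / |Disc K|^(1/2)`, where `G = Ω_{E/K} C_{E/K} / (#E(K)_tors)²` is of size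
`exp(O([K : ℚ]))` for a fixed `E/ℚ`.

Nothing is assumed but the modularity of `E`, a theorem.  `E/ℚ` is any elliptic curve,
`N` its conductor; `K` runs over the large abelian number fields of conductor dividing `n`, `n`
prime to `N`: the subfields of `ℚ(ζ_n)` with `[K : ℚ] ≥ n ^ θ`, `θ < 1` close to `1`, for instance
all `K = ℚ(ζ_n)`, all `K = ℚ(ζ_n)⁺`, all their subfields of bounded index.  Then, for `n → ∞`,

* the order of vanishing of `L(E/K, s)` at `s = 1` is `o(log |Disc K|)`;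
* `|L^*(E/K)| ≤ |Disc K| ^ o(1)`;
* **the law**: `|L^*(E/K)| = |Disc K| ^ o(1) · ∏ (|ρ - 1| / δ)`, the product over the zeros `ρ` of
  `L(E/K, s)` with `0 < |ρ - 1| < δ` (`δ → 0` after `n → ∞`);
* so `|L^*(E/K)| = |Disc K| ^ o(1)` if and only if the zeros do not accumulate at `s = 1`, in the
  sense that the sum of `log (δ / |ρ - 1|)` over these zeros is `o(log |Disc K|)`;
* for the formula of Birch and Swinnerton-Dyer: the number `S = #Ш R` predicted by (Q1) satisfies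
  `S ≤ |Disc K| ^ (1/2 + o(1))`, and `S = |Disc K| ^ (1/2 + o(1)) ∏ (|ρ - 1| / δ)`.

For a fixed degree the bound `#Ш R ≤ |Disc K| ^ (1/2 + ε)` was known to follow from the Riemann
hypothesis for `L(E/K, s)` together with Q1.  Here the degree tends to infinity and the Riemann
hypothesis is not used.

The theorem `allFields` (not a part of the result) treats all fields: for all elliptic curves `E_i`
over all number fields `K_i` which satisfy the Hasse-Weil conjecture, with conductors `A_i = Norm(N_{E/K}) |Disc K|²` such that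
`log A_i / [K_i : ℚ] → ∞` (the degrees are arbitrary), the same law holds if at most `o(log A_i)`
zeros of bounded height have a distance `≥ ε` from the line `Re s = 1`; instead of this hypothesis,
implied by the Riemann hypothesis, one may take the Lindelöf hypothesis in the aspect of the
conductor.

Proof.  Jensen's formula with the leading coefficient at the centre, integrated over the circles
about `s = 1` of radius less than `δ`, expresses `log |L^*| + ∑ log (δ / |ρ - 1|)` by the mean of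
`log |Λ|` over a disc, up to the number of zeros in the disc.  The mean is estimated by the
convergence in `L¹` of `log |Λ| / log A` to a piecewise linear function, the number of the zeros
by their equidistribution; these were proved with a density theorem for the zeros of the
twists by the characters modulo one `n` in `MP_fb225e_nt.ZerosOfBoundedHeight`.  The discriminant is
computed by the conductor-discriminant formula.
-/

set_option autoImplicit false

open Complex NumberField IsDedekindDomain UpperHalfPlane MatrixGroups CongruenceSubgroup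

namespace Pool.Agent.Results.MP_f50388_nt.BrauerSiegelLaw

/-! ### The L-functions of an elliptic curve over `ℚ` over abelian number fields -/

/-- The coefficient `a_p` of `E : y² = x³ + a x + b` at a prime `p ∤ 2 (4a³ + 27b²)`: `p` minus the
number of pairs `(x, y)` modulo `p` with `y² = x³ + a x + b`. -/
noncomputable def ap (a b : ℤ) (p : ℕ) : ℤ :=
  (p : ℤ) - Nat.card {x : ZMod p × ZMod p //
    x.2 ^ 2 = x.1 ^ 3 + (a : ZMod p) * x.1 + (b : ZMod p)}

/-- The `n`-th Fourier coefficient of `f`. -/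
noncomputable def coef {N : ℕ} (f : CuspForm (Gamma0 N : Subgroup (GL (Fin 2) ℝ)) 2) (n : ℕ) : ℂ :=
  (qExpansion 1 f).coeff n

/-- `f ∈ S_2(Γ₀(N))` is the newform of the elliptic curve `E : y² = x³ + a x + b`: the Fourier
coefficients `c(n)` of `f` are real with `c(1) = 1`, they satisfy the Hecke relations
`c(mn) = c(m) c(n)` for coprime `m`, `n` and `c(p^(j+2)) = c(p) c(p^(j+1)) - p c(p^j)` (without the
last term if `p ∣ N`), `f` is an eigenfunction of the Fricke involution: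
`f(-1/(Nτ)) = -w N τ² f(τ)` with `w = ±1`, and for all primes `p ∤ 2 (4a³ + 27b²)` one has `p ∤ N`
and `c(p) = a_p(E)`. -/
structure IsFormOf (a b : ℤ) (N : ℕ) (f : CuspForm (Gamma0 N : Subgroup (GL (Fin 2) ℝ)) 2) :
    Prop where
  one : coef f 1 = 1
  real : ∀ n, (coef f n).im = 0
  mul : ∀ m n : ℕ, Nat.Coprime m n → coef f (m * n) = coef f m * coef f n
  pow : ∀ p j : ℕ, p.Prime → coef f (p ^ (j + 2)) = coef f p * coef f (p ^ (j + 1)) -
      (if p ∣ N then 0 else (p : ℂ) * coef f (p ^ j))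
  fricke : ∃ w : ℝ, (w = 1 ∨ w = -1) ∧ ∀ τ τ' : ℍ, (τ' : ℂ) * ((N : ℂ) * (τ : ℂ)) = -1 →
    f τ' = -(w : ℂ) * (N : ℂ) * (τ : ℂ) ^ 2 * f τ
  points : ∀ p : ℕ, p.Prime → ¬ (p : ℤ) ∣ 2 * (4 * a ^ 3 + 27 * b ^ 2) →
    ¬ p ∣ N ∧ coef f p = (ap a b p : ℂ)

/-- `pw t u n = α ^ n + β ^ n`, where `α`, `β` are the roots of `X² - t X + u`. -/
noncomputable def pw (t u : ℂ) : ℕ → ℂ
  | 0 => 2
  | 1 => t
  | n + 2 => t * pw t u (n + 1) - u * pw t u n

section
variable {K : Type} [Field K] [NumberField K]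

/-- The number `a_v` of `E : y² = x³ + a x + b` at a prime `v` of `K`: `Nv` minus the number of affine
solutions `(x, y)` of the equation over the residue field `𝓞 K / v`. -/
noncomputable def av (a b : ℤ) (v : HeightOneSpectrum (𝓞 K)) : ℤ :=
  ((Ideal.absNorm v.asIdeal : ℕ) : ℤ) -
    ((Nat.card {x : (𝓞 K ⧸ v.asIdeal) × (𝓞 K ⧸ v.asIdeal) //
      x.2 ^ 2 = x.1 ^ 3 + (a : 𝓞 K ⧸ v.asIdeal) * x.1 + (b : 𝓞 K ⧸ v.asIdeal)} : ℕ) : ℤ)

open Classical in
/-- The local factor of `L(E/K, s)` at the prime `v` of `K`, `K` unramified at the primes dividing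
`N`.  If `v ∤ 2 (4a³ + 27b²)`, it is `(1 - a_v (Nv)^(-s) + (Nv)^(1-2s))⁻¹`.  If
`v ∣ 2 (4a³ + 27b²)` and `Nv = p ^ d` with `p` prime, it is
`(1 - (α^d + β^d) (Nv)^(-s) + (Nv)^(1-2s))⁻¹` for `p ∤ N`, where `α`, `β` are the roots of
`X² - c(p) X + p`, and `(1 - c(p)^d (Nv)^(-s))⁻¹` for `p ∣ N`. -/
noncomputable def factor (a b : ℤ) {N : ℕ} (f : CuspForm (Gamma0 N : Subgroup (GL (Fin 2) ℝ)) 2)
    (s : ℂ) (v : HeightOneSpectrum (𝓞 K)) : ℂ :=
  if ((2 * (4 * a ^ 3 + 27 * b ^ 2) : ℤ) : 𝓞 K) ∈ v.asIdeal then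
    (1 - pw (coef f (Ideal.absNorm v.asIdeal).minFac)
          (if (Ideal.absNorm v.asIdeal).minFac ∣ N then 0 else ((Ideal.absNorm v.asIdeal).minFac : ℂ))
          ((Ideal.absNorm v.asIdeal).factorization (Ideal.absNorm v.asIdeal).minFac)
          * ((Ideal.absNorm v.asIdeal : ℕ) : ℂ) ^ (-s)
      + (if (Ideal.absNorm v.asIdeal).minFac ∣ N then (0 : ℂ) else
          ((Ideal.absNorm v.asIdeal : ℕ) : ℂ) ^ (1 - 2 * s)))⁻¹
  else
    (1 - ((av a b v : ℤ) : ℂ) * ((Ideal.absNorm v.asIdeal : ℕ) : ℂ) ^ (-s)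
      + ((Ideal.absNorm v.asIdeal : ℕ) : ℂ) ^ (1 - 2 * s))⁻¹

end

/-- `Z` is the Hasse-Weil `L`-function of `E : y² = x³ + a x + b` over the number field `K`: an entire
function, not identically zero, which for `Re s > 3/2` is the Euler product over all the primes `v` of
`K` of the local factors of `E`. -/
def IsHasseWeil (a b : ℤ) {N : ℕ} (f : CuspForm (Gamma0 N : Subgroup (GL (Fin 2) ℝ)) 2)
    (K : Type) [Field K] [NumberField K] (Z : ℂ → ℂ) : Prop :=
  Differentiable ℂ Z ∧ (∃ s, Z s ≠ 0) ∧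
    ∀ s : ℂ, 3 / 2 < s.re → HasProd (fun v : HeightOneSpectrum (𝓞 K) => factor a b f s v) (Z s)

/-! ### The leading coefficient and the zeros near `s = 1` -/

/-- the order of vanishing at `s = 1` -/
noncomputable def ord (Z : ℂ → ℂ) : ℕ := analyticOrderNatAt Z 1

/-- the leading coefficient at `s = 1`: the limit of `(s - 1)^(-ord) Z(s)` -/
noncomputable def lead (Z : ℂ → ℂ) : ℂ := meromorphicTrailingCoeffAt Z 1

open Classical in
/-- the sum of `log (δ / |ρ - 1|)` over the zeros `ρ` of `Z` with `0 < |ρ - 1| < δ`, with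
multiplicity -/
noncomputable def near (Z : ℂ → ℂ) (δ : ℝ) : ℝ :=
  ∑ᶠ ρ : ℂ, if 0 < ‖ρ - 1‖ ∧ ‖ρ - 1‖ < δ then
    (analyticOrderNatAt Z ρ : ℝ) * Real.log (δ / ‖ρ - 1‖) else 0

/-- the absolute value of the discriminant -/
noncomputable def absDisc (F : Type) [Field F] [NumberField F] : ℝ := |(discr F : ℝ)|

/-- the degree `[F : ℚ]` -/
noncomputable def deg (F : Type) [Field F] [Algebra ℚ F] : ℕ := Module.finrank ℚ F

/-- `S` is the number `#Ш R` which is predicted by the formula of Birch and Swinnerton-Dyer (Q1) for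
`|L^*| = l`, the discriminant `D` and the value `G` of `Ω_{E/K} C_{E/K} / (#E(K)_tors)²`. -/
def Predicts (l D G S : ℝ) : Prop := l = S * G / D ^ (1 / 2 : ℝ)

/-- A property of the functions `Z = L(E/F, s)`, of the absolute discriminant `D` and the degree `d`
of `F` holds for the large abelian fields: there is a `θ < 1` such that it holds for all sufficiently
large `n` prime to `N` and all subfields `F` of `ℚ(ζ_n)` with `[F : ℚ] ≥ n ^ θ`. -/
def ForLarge (a b : ℤ) {N : ℕ} (f : CuspForm (Gamma0 N : Subgroup (GL (Fin 2) ℝ)) 2)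
    (P : (ℂ → ℂ) → ℝ → ℕ → Prop) : Prop :=
  ∃ θ : ℝ, θ < 1 ∧ ∃ n₀ : ℕ, ∀ (n : ℕ) [NeZero n], n₀ ≤ n → Nat.Coprime n N →
    ∀ (L : Type) [Field L] [NumberField L] [IsCyclotomicExtension {n} ℚ L]
      (F : IntermediateField ℚ L), (n : ℝ) ^ θ ≤ deg F →
      ∀ Z : ℂ → ℂ, IsHasseWeil a b f F Z → P Z (absDisc F) (deg F)

section statements

variable (a b : ℤ) (N : ℕ) (f : CuspForm (Gamma0 N : Subgroup (GL (Fin 2) ℝ)) 2)

/-- (0) For all `n` prime to `N` and all subfields `F` of `ℚ(ζ_n)` there is exactly one function `Z`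
which is the Hasse-Weil `L`-function of `E` over `F`. -/
def Continuation : Prop :=
  ∀ (n : ℕ) [NeZero n], Nat.Coprime n N → ∀ (L : Type) [Field L] [NumberField L]
    [IsCyclotomicExtension {n} ℚ L] (F : IntermediateField ℚ L), ∃! Z : ℂ → ℂ, IsHasseWeil a b f F Z

/-- (1) The order of vanishing at `s = 1` is at most `ε log |Disc F|`. -/
def Order : Prop := ∀ ε : ℝ, 0 < ε → ForLarge a b f fun Z D _ => (ord Z : ℝ) ≤ ε * Real.log D

/-- (2) The leading coefficient is not zero and at most `|Disc F| ^ ε`. -/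
def Size : Prop := ∀ ε : ℝ, 0 < ε → ForLarge a b f fun Z D _ => lead Z ≠ 0 ∧ ‖lead Z‖ ≤ D ^ ε

/-- (3) The law: the logarithm of the leading coefficient is `- near Z δ`, up to
`ε log |Disc F|`, if `δ ≤ δ₀(ε)`. -/
def Law : Prop := ∀ ε : ℝ, 0 < ε → ∃ δ₀ : ℝ, 0 < δ₀ ∧ ∀ δ : ℝ, 0 < δ → δ ≤ δ₀ →
  ForLarge a b f fun Z D _ => |Real.log ‖lead Z‖ + near Z δ| ≤ ε * Real.log D

/-- (4) The leading coefficient is at least `|Disc F| ^ (-ε)`, for all `ε`, if and only if the zeros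
do not accumulate at `s = 1`. -/
def Criterion : Prop :=
  (∀ ε : ℝ, 0 < ε → ForLarge a b f fun Z D _ => D ^ (-ε) ≤ ‖lead Z‖) ↔
  ∀ ε : ℝ, 0 < ε → ∃ δ : ℝ, 0 < δ ∧ ForLarge a b f fun Z D _ => near Z δ ≤ ε * Real.log D

/-- (5) The number `S = #Ш R` predicted by the formula of Birch and Swinnerton-Dyer is at most
`|Disc F| ^ (1/2 + ε)`, if `G ≥ exp(-κ [F : ℚ])`. -/
def Sha : Prop := ∀ ε κ : ℝ, 0 < ε → ForLarge a b f fun Z D d =>
  ∀ S G : ℝ, Real.exp (-(κ * d)) ≤ G → Predicts ‖lead Z‖ D G S → S ≤ D ^ (1 / 2 + ε)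

/-- (6) The law for the number `S = #Ш R` predicted by the formula of Birch and Swinnerton-Dyer:
`log S = (1/2) log |Disc F| - near Z δ`, up to `ε log |Disc F|`. -/
def ShaLaw : Prop := ∀ ε κ : ℝ, 0 < ε → ∃ δ₀ : ℝ, 0 < δ₀ ∧ ∀ δ : ℝ, 0 < δ → δ ≤ δ₀ →
  ForLarge a b f fun Z D d => ∀ S G : ℝ, Real.exp (-(κ * d)) ≤ G → G ≤ Real.exp (κ * d) →
    Predicts ‖lead Z‖ D G S → |Real.log S - (1 / 2 * Real.log D - near Z δ)| ≤ ε * Real.log D

end statements

/-! ### Elliptic curves over arbitrary number fields -/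

section field
variable {K : Type} [Field K] [NumberField K]

/-- the number of affine points of `y² = x³ + a x + b` over the residue field of `v` -/
noncomputable def points (a b : 𝓞 K) (v : HeightOneSpectrum (𝓞 K)) : ℕ :=
  Nat.card {P : (𝓞 K ⧸ v.asIdeal) × (𝓞 K ⧸ v.asIdeal) //
    P.2 ^ 2 = P.1 ^ 3 + Ideal.Quotient.mk v.asIdeal a * P.1 + Ideal.Quotient.mk v.asIdeal b}

/-- the Euler factor `(1 - c q^(-s) + e q^(-2 s))⁻¹` -/
noncomputable def eulerFactor (c e : ℤ) (q : ℕ) (s : ℂ) : ℂ :=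
  (1 - (c : ℂ) * (q : ℂ) ^ (-s) + (e : ℂ) * (q : ℂ) ^ (-(2 * s)))⁻¹

/-- the possible Euler factors of an elliptic curve at a place with `q` residue classes:
good reduction (`e = q`, `c² ≤ 4 q`) or bad reduction (`e = 0`, `c = 0, 1, -1`) -/
def Possible (c e : ℤ) (q : ℕ) : Prop := (e = q ∧ c ^ 2 ≤ 4 * (q : ℤ)) ∨ (e = 0 ∧ c ^ 2 ≤ 1)

/-- `1 - c_v T + e_v T²` are the local polynomials of `y² = x³ + a x + b`: given by the number of
points, `c_v = Nv - #(affine points)` and `e_v = Nv`, if `v` does not divide `2 (4 a³ + 27 b²)`, and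
possible for an elliptic curve at the finitely many other places -/
structure IsLocal (a b : 𝓞 K) (c e : HeightOneSpectrum (𝓞 K) → ℤ) : Prop where
  good : ∀ v : HeightOneSpectrum (𝓞 K), 2 * (4 * a ^ 3 + 27 * b ^ 2) ∉ v.asIdeal →
    c v = (Ideal.absNorm v.asIdeal : ℤ) - points a b v ∧ e v = Ideal.absNorm v.asIdeal
  bad : ∀ v : HeightOneSpectrum (𝓞 K), 2 * (4 * a ^ 3 + 27 * b ^ 2) ∈ v.asIdeal →
    Possible (c v) (e v) (Ideal.absNorm v.asIdeal)

end field

/-- the completed function `A^(s/2) ((2π)^(-s) Γ(s))^n L(s)` -/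
noncomputable def completed (n : ℕ) (A : ℝ) (L : ℂ → ℂ) (s : ℂ) : ℂ :=
  (A : ℂ) ^ (s / 2) * ((2 * Real.pi : ℂ) ^ (-s) * Complex.Gamma s) ^ n * L s

/-- `L` is the L-function of the elliptic curve `y² = x³ + a x + b` over `K`: it is given by the
Euler product for `Re s > 3/2`, it is entire, and it has the functional equation with the conductor
`A` (stated in the critical strip `0 < Re s < 2` of the completed function).  The bound `growth` in
the strip is very weak, in all known cases `L` is of finite order. -/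
structure HasseWeil (K : Type) [Field K] [NumberField K] (a b : 𝓞 K) (A : ℝ) (L : ℂ → ℂ) :
    Prop where
  nonsingular : 4 * a ^ 3 + 27 * b ^ 2 ≠ 0
  euler : ∃ c e : HeightOneSpectrum (𝓞 K) → ℤ, IsLocal a b c e ∧ ∀ s : ℂ, 3 / 2 < s.re →
    HasProd (fun v : HeightOneSpectrum (𝓞 K) =>
      eulerFactor (c v) (e v) (Ideal.absNorm v.asIdeal) s) (L s)
  entire : Differentiable ℂ L
  growth : ∃ B : ℝ, ∀ s : ℂ, 0 < s.re → s.re < 2 → ‖L s‖ ≤ Real.exp (B * Real.exp |s.im|)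
  pos : 0 < A
  fe : ∃ w : ℂ, ‖w‖ = 1 ∧ ∀ s : ℂ, 0 < s.re → s.re < 2 →
    completed (Module.finrank ℚ K) A L s = w * completed (Module.finrank ℚ K) A L (2 - s)

open Classical in
/-- The number of the nontrivial zeros, i.e. the zeros in the strip `0 < Re ρ < 2`, in a set, with
multiplicity. -/
noncomputable def count (L : ℂ → ℂ) (S : Set ℂ) : ℝ :=
  ∑ᶠ ρ : ℂ, if 0 < ρ.re ∧ ρ.re < 2 then
    (analyticOrderNatAt L ρ : ℝ) * S.indicator (fun _ => 1) ρ else 0

/-- The law over all number fields (not a part of the result). Let `E_i : y² = x³ + a_i x + b_i` be elliptic curves over number fields `K_i` (`i`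
runs over a set with a filter, e.g. a sequence) which satisfy the Hasse-Weil conjecture, with
conductors `A_i` such that `log A_i / [K_i : ℚ] → ∞`.  Assume that at most `ε log A_i` zeros with
`|Im ρ| ≤ T` have a distance `≥ ε` from the line `Re s = 1`, for all `T` and `ε > 0` and for almost
all `i`.  Then the order of vanishing at `s = 1` is `o(log A_i)`, the leading coefficient is at most
`A_i ^ o(1)`, and the law holds. -/
def AllFields : Prop :=
  ∀ {ι : Type} (l : Filter ι) (K : ι → Type) [∀ i, Field (K i)] [∀ i, NumberField (K i)]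
    (a b : ∀ i, 𝓞 (K i)) (A : ι → ℝ) (L : ι → ℂ → ℂ),
    (∀ i, HasseWeil (K i) (a i) (b i) (A i) (L i)) →
    Filter.Tendsto (fun i => Real.log (A i) / Module.finrank ℚ (K i)) l Filter.atTop →
    (∀ T ε : ℝ, 0 < ε → ∀ᶠ i in l,
      count (L i) {ρ : ℂ | |ρ.im| ≤ T ∧ ε ≤ |ρ.re - 1|} ≤ ε * Real.log (A i)) →
    (∀ ε : ℝ, 0 < ε → ∀ᶠ i in l, (ord (L i) : ℝ) ≤ ε * Real.log (A i)) ∧
    (∀ ε : ℝ, 0 < ε → ∀ᶠ i in l, ‖lead (L i)‖ ≤ A i ^ ε) ∧
    (∀ ε : ℝ, 0 < ε → ∃ δ₀ : ℝ, 0 < δ₀ ∧ ∀ δ : ℝ, 0 < δ → δ ≤ δ₀ → ∀ᶠ i in l,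
      |Real.log ‖lead (L i)‖ + near (L i) δ| ≤ ε * Real.log (A i))

/-! ### Proofs -/

open Pool.Agent.H465.NF
open Pool.Agent.H465.EQ (lk)
open H300.HW (YY)

lemma lk_eq (δ : ℝ) (hδ : 0 < δ) (w : ℂ) :
    lk δ w = if 0 < ‖w‖ ∧ ‖w‖ < δ then Real.log (δ / ‖w‖) else 0 := by
  split_ifs with h
  · rw [Pool.Agent.H465.EQ.lk_near (norm_pos_iff.1 h.1) h.2.le, div_eq_mul_inv]
  · rw [not_and_or, not_lt, not_lt] at h
    rcases h with h | h
    · have : ‖w‖ = 0 := le_antisymm h (norm_nonneg _)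
      unfold Pool.Agent.H465.EQ.lk
      rw [this, div_zero, Real.posLog_zero]
    · exact Pool.Agent.H465.EQ.lk_far hδ.le h

lemma near_eq (Z : ℂ → ℂ) {δ : ℝ} (hδ : 0 < δ) (hδ1 : δ ≤ 1 / 2) :
    near Z δ = zsum Z (fun ρ => lk δ (ρ - 1)) := by
  classical
  unfold near zsum
  refine finsum_congr fun ρ => ?_
  simp only [lk_eq δ hδ]
  by_cases h : 0 < ‖ρ - 1‖ ∧ ‖ρ - 1‖ < δ
  · have h1 := Complex.abs_re_le_norm (ρ - 1)
    rw [Complex.sub_re, Complex.one_re] at h1
    have h2 := abs_le.1 h1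
    rw [if_pos h, if_pos h, if_pos ⟨by linarith, by linarith⟩]
  · rw [if_neg h, if_neg h]
    simp

lemma near_nonneg (Z : ℂ → ℂ) (δ : ℝ) : 0 ≤ near Z δ := by
  classical
  unfold near
  refine finsum_nonneg fun ρ => ?_
  split_ifs with h
  · refine mul_nonneg (Nat.cast_nonneg _) (Real.log_nonneg ?_)
    rw [le_div_iff₀ h.1, one_mul]
    exact h.2.le
  · exact le_rfl

lemma near_mono {Z : ℂ → ℂ} (hZ : Differentiable ℂ Z) {z₀ : ℂ} (h0 : Z z₀ ≠ 0) {δ δ' : ℝ}
    (h : δ ≤ δ') : near Z δ ≤ near Z δ' := by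
  classical
  have hfin : ∀ d : ℝ, d ≤ δ' → (Function.support fun ρ : ℂ => if 0 < ‖ρ - 1‖ ∧ ‖ρ - 1‖ < d then
      (analyticOrderNatAt Z ρ : ℝ) * Real.log (d / ‖ρ - 1‖) else 0) ⊆
      (Pool.Agent.H465.PT.fin_zeros hZ h0 1 δ').toFinset := by
    intro d hd ρ hρ
    rw [Function.mem_support] at hρ
    rw [Set.Finite.coe_toFinset]
    have h1 : 0 < ‖ρ - 1‖ ∧ ‖ρ - 1‖ < d := by
      by_contra hcon
      exact hρ (if_neg hcon)
    rw [if_pos h1] at hρ
    refine ⟨Pool.Agent.H465.EQ.mu_ne hZ (left_ne_zero_of_mul hρ), ?_⟩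
    rw [Metric.mem_closedBall, dist_eq_norm]
    linarith [h1.2]
  unfold near
  rw [finsum_eq_sum_of_support_subset _ (hfin δ h),
    finsum_eq_sum_of_support_subset _ (hfin δ' le_rfl)]
  refine Finset.sum_le_sum fun ρ _ => ?_
  by_cases h1 : 0 < ‖ρ - 1‖ ∧ ‖ρ - 1‖ < δ
  · rw [if_pos h1, if_pos ⟨h1.1, h1.2.trans_le h⟩]
    refine mul_le_mul_of_nonneg_left ?_ (Nat.cast_nonneg _)
    have h2 : 0 < δ := h1.1.trans h1.2
    have h3 := h1.1
    exact Real.log_le_log (by positivity) (by gcongr)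
  · rw [if_neg h1]
    split_ifs with h2
    · refine mul_nonneg (Nat.cast_nonneg _) (Real.log_nonneg ?_)
      rw [le_div_iff₀ h2.1, one_mul]
      exact h2.2.le
    · exact le_rfl

theorem allFields : AllFields := by
  intro ι l K _ _ a b A L h hA hz
  have hc : ∀ i, Pool.Agent.H465.PT.HasseWeil (K i) (a i) (b i) (A i) (L i) := by
    intro i
    obtain ⟨c, e, hl, he⟩ := (h i).euler
    exact ⟨(h i).nonsingular, ⟨c, e, ⟨hl.good, hl.bad⟩, he⟩, (h i).entire, (h i).growth,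
      (h i).pos, (h i).fe⟩
  have hE := ((Pool.Agent.H465.PT.hw_tfae hc hA).out 0 1).1 hz
  have hx : ∀ᶠ i in l, 0 < Real.log (A i) :=
    (Pool.Agent.H465.PT.ev_small hA one_pos).mono fun i hi => hi.2
  have key : ∀ ε δ : ℝ, 0 < δ → δ ≤ 1 / 2 → δ ≤ ε / 8 → ∀ᶠ i in l,
      |Real.log ‖lead (L i)‖ + near (L i) δ| ≤ ε * Real.log (A i) ∧
      (ord (L i) : ℝ) ≤ ε * Real.log (A i) := by
    intro ε δ h1 h2 h3
    filter_upwards [Pool.Agent.H465.PT.hw_law hc hA hE h1 h2 h3] with i hi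
    rw [near_eq _ h1 h2]
    exact hi
  refine ⟨fun ε hε => ?_, fun ε hε => ?_, fun ε hε => ?_⟩
  · exact (key ε (min (1 / 2) (ε / 8)) (by positivity) (min_le_left _ _) (min_le_right _ _)).mono
      fun i hi => hi.2
  · filter_upwards [key ε (min (1 / 2) (ε / 8)) (by positivity) (min_le_left _ _)
      (min_le_right _ _), hx] with i hi hxi
    have h1 := (abs_le.1 hi.1).2
    have h2 := near_nonneg (L i) (min (1 / 2) (ε / 8))
    by_cases h3 : lead (L i) = 0
    · rw [h3, norm_zero]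
      exact (Real.rpow_pos_of_pos (h i).pos _).le
    · rw [← Real.log_le_log_iff (norm_pos_iff.2 h3) (Real.rpow_pos_of_pos (h i).pos _),
        Real.log_rpow (h i).pos]
      linarith
  · refine ⟨min (1 / 2) (ε / 8), by positivity, fun δ hδ hδ' => ?_⟩
    exact (key ε δ hδ (hδ'.trans (min_le_left _ _)) (hδ'.trans (min_le_right _ _))).mono
      fun i hi => hi.1

open Pool.Agent.Results.MP_fb225e_nt in
theorem conv {a b : ℤ} {N : ℕ} {f : CuspForm (Gamma0 N : Subgroup (GL (Fin 2) ℝ)) 2}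
    (h : IsFormOf a b N f) : ZerosOfBoundedHeight.IsFormOf a b N f :=
  ⟨h.one, h.real, h.mul, h.pow, h.fricke, h.points⟩

theorem pw_eq (t u : ℂ) : ∀ n : ℕ, pw t u n =
    Pool.Agent.Results.MP_fb225e_nt.ZerosOfBoundedHeight.pw t u n
  | 0 => rfl
  | 1 => rfl
  | n + 2 => by
    rw [pw, Pool.Agent.Results.MP_fb225e_nt.ZerosOfBoundedHeight.pw, pw_eq t u (n + 1), pw_eq t u n]

theorem hw_iff (a b : ℤ) {N : ℕ} (f : CuspForm (Gamma0 N : Subgroup (GL (Fin 2) ℝ)) 2)
    (K : Type) [Field K] [NumberField K] (Z : ℂ → ℂ) : IsHasseWeil a b f K Z ↔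
      Pool.Agent.Results.MP_fb225e_nt.ZerosOfBoundedHeight.IsHasseWeil a b f K Z := by
  unfold IsHasseWeil Pool.Agent.Results.MP_fb225e_nt.ZerosOfBoundedHeight.IsHasseWeil factor
    Pool.Agent.Results.MP_fb225e_nt.ZerosOfBoundedHeight.factor
  simp only [pw_eq]
  rfl

/-- `near` and `lead` of the shifted function -/
lemma near_shift (G : ℂ → ℂ) {δ : ℝ} (hδ : 0 < δ) (hδ1 : δ ≤ 1 / 2) :
    near (fun s => G (s - 1 / 2)) δ =
      Pool.Agent.H465.EQ.zs G (fun u => lk δ (u - 1 / 2)) := by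
  rw [near_eq _ hδ hδ1, zsum_shift]
  congr 1
  funext u
  congr 1
  ring

lemma lead_shift (G : ℂ → ℂ) :
    lead (fun s => G (s - 1 / 2)) = meromorphicTrailingCoeffAt G (1 / 2) := by
  unfold lead
  have h := meromorphicTrailingCoeffAt_comp_sub_const_eq_meromorphicTrailingCoeffAt
    (f := G) (x := 1) (c := 1 / 2)
  have e : (1 : ℂ) - 1 / 2 = 1 / 2 := by norm_num
  rw [e] at h
  exact h

lemma ord_shift (G : ℂ → ℂ) : ord (fun s => G (s - 1 / 2)) = analyticOrderNatAt G (1 / 2) := by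
  unfold ord
  have h := order_shift G (1 / 2)
  have e : (1 / 2 : ℂ) + 1 / 2 = 1 := by norm_num
  rwa [e] at h

section abelian
variable {a b : ℤ} {N : ℕ} {f : CuspForm (Gamma0 N : Subgroup (GL (Fin 2) ℝ)) 2}

/-- everything that is needed about the large abelian fields -/
structure Fits (ε κ δ : ℝ) (Z : ℂ → ℂ) (D : ℝ) (d : ℕ) : Prop where
  one : 1 < D
  deg : κ * d ≤ ε * Real.log D
  nz : lead Z ≠ 0
  law : |Real.log ‖lead Z‖ + near Z δ| ≤ ε * Real.log D
  ord : (ord Z : ℝ) ≤ ε * Real.log D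
  ent : Differentiable ℂ Z
  ne : ∃ z, Z z ≠ 0

lemma ForLarge.mono {P Q : (ℂ → ℂ) → ℝ → ℕ → Prop} (h : ForLarge a b f P)
    (hPQ : ∀ Z D d, P Z D d → Q Z D d) : ForLarge a b f Q := by
  obtain ⟨θ, hθ, n₀, h⟩ := h
  exact ⟨θ, hθ, n₀, fun n _ h1 h2 L _ _ _ F h3 Z h4 => hPQ _ _ _ (h n h1 h2 L F h3 Z h4)⟩

lemma ForLarge.and {P Q : (ℂ → ℂ) → ℝ → ℕ → Prop} (h : ForLarge a b f P)
    (h' : ForLarge a b f Q) : ForLarge a b f fun Z D d => P Z D d ∧ Q Z D d := by
  obtain ⟨θ, hθ, n₀, h⟩ := h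
  obtain ⟨θ', hθ', n₀', h'⟩ := h'
  refine ⟨max θ θ', max_lt hθ hθ', max (max n₀ n₀') 1, fun n _ h1 h2 L _ _ _ F h3 Z h4 => ?_⟩
  have hn1 : (1 : ℝ) ≤ n := by exact_mod_cast (le_max_right _ _).trans h1
  exact ⟨h n ((le_max_left _ _).trans ((le_max_left _ _).trans h1)) h2 L F
    ((Real.rpow_le_rpow_of_exponent_le hn1 (le_max_left _ _)).trans h3) Z h4,
    h' n ((le_max_right _ _).trans ((le_max_left _ _).trans h1)) h2 L F
    ((Real.rpow_le_rpow_of_exponent_le hn1 (le_max_right _ _)).trans h3) Z h4⟩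

theorem base (hE : 4 * a ^ 3 + 27 * b ^ 2 ≠ 0) [NeZero N] (hf : IsFormOf a b N f) {ε δ : ℝ}
    (κ : ℝ) (hδ : 0 < δ) (hδ1 : δ ≤ 1 / 2) (hδε : δ ≤ ε / 48) :
    ForLarge a b f (Fits ε κ δ) := by
  classical
  have hε : 0 < ε := by linarith
  obtain ⟨B, G, hTw, hcore⟩ :=
    Pool.Agent.Results.MP_fb225e_nt.ZerosOfBoundedHeight.core hE (conv hf)
  obtain ⟨θ, hθ, hlaw⟩ := chars_law hTw hδ hδ1 (ε := ε / 2) (by linarith)
  obtain ⟨n₀, hn₀⟩ := Filter.eventually_atTop.1 (hlaw.and ((log_discr (a := 1 / 8) (by norm_num)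
    (by norm_num)).and ((ev_log 1 (ε := 1) one_pos).and
      (ev_log (2 * |κ|) (ε := ε) hε))))
  refine ⟨max θ (1 - 1 / 8), max_lt hθ (by norm_num), max n₀ 1, ?_⟩
  intro n _ hn hnN L _ _ _ F hF Z hZ
  have hn1 : (1 : ℝ) ≤ n := by exact_mod_cast (le_max_right _ _).trans hn
  obtain ⟨h1, h2, h3, h4⟩ := hn₀ n ((le_max_left _ _).trans hn)
  have hZ' := (hw_iff a b f F Z).1 hZ
  have hc := hcore n hnN L F
  have hZe := Pool.Agent.Results.MP_fb225e_nt.ZerosOfBoundedHeight.unique hZ' hc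
  set X := Pool.Agent.Results.MP_fb225e_nt.ZerosOfBoundedHeight.XX n L F with hX
  have hcard : (X.card : ℝ) = deg F := by
    have := Pool.Agent.Results.MP_fb225e_nt.ZerosOfBoundedHeight.card_XX n L F
    exact_mod_cast this
  have hXF : (n : ℝ) ^ (max θ (1 - 1 / 8)) ≤ X.card := by rw [hcard]; exact hF
  have hX1 : (n : ℝ) ^ θ ≤ X.card :=
    (Real.rpow_le_rpow_of_exponent_le hn1 (le_max_left _ _)).trans hXF
  have hX2 : (n : ℝ) ^ (1 - 1 / 8 : ℝ) ≤ X.card :=
    (Real.rpow_le_rpow_of_exponent_le hn1 (le_max_right _ _)).trans hXF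
  obtain ⟨k1, k2⟩ := h1 inferInstance hnN X hX1
  have hdisc := discr_eq n L F X (fun χ => by
    rw [hX]
    unfold Pool.Agent.Results.MP_fb225e_nt.ZerosOfBoundedHeight.XX
    simp)
  obtain ⟨k3, k4⟩ := h2 inferInstance X _ hX2 hdisc
  have hD : absDisc F = (((discr F).natAbs : ℕ) : ℝ) := by
    unfold absDisc
    rw [Nat.cast_natAbs, Int.cast_abs]
  rw [← hD] at k3 k4
  set x : ℝ := X.card * Real.log n with hx
  have hXp : (1 : ℝ) ≤ X.card := (Real.one_le_rpow hn1 (by norm_num)).trans hX2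
  have hx0 : 0 < x := by
    have : 0 < Real.log n := by linarith
    positivity
  have hxD : x ≤ 2 * Real.log (absDisc F) := by linarith
  have hlD : 0 < Real.log (absDisc F) := by linarith
  have hD0 : 0 ≤ absDisc F := abs_nonneg _
  have hD1 : 1 < absDisc F := by
    rcases (Real.log_pos_iff hD0).1 hlD with h
    exact h
  have e1 : Real.log ‖lead Z‖ + near Z δ =
      Real.log ‖meromorphicTrailingCoeffAt (fun s => ∏ χ ∈ X, Lp G χ s) (1 / 2)‖ +
        Pool.Agent.H465.EQ.zs (fun s => ∏ χ ∈ X, Lp G χ s) (fun u => lk δ (u - 1 / 2)) := by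
    rw [hZe, ← near_shift _ hδ hδ1, ← lead_shift]
  have e2 : ord Z = analyticOrderNatAt (fun s => ∏ χ ∈ X, Lp G χ s) (1 / 2) := by
    rw [hZe]
    exact ord_shift (fun s => ∏ χ ∈ X, Lp G χ s)
  have h6 : ε / 2 * x ≤ ε * Real.log (absDisc F) := by nlinarith
  obtain ⟨z₀, hz₀⟩ := hZ.2.1
  have hmer : MeromorphicAt Z 1 := (hZ.1.analyticAt 1).meromorphicAt
  have hfo : meromorphicOrderAt Z 1 ≠ ⊤ := by
    rw [(hZ.1.analyticAt _).meromorphicOrderAt_eq]
    have h7 := Pool.Agent.H465.PT.order_ne_top hZ.1 hz₀ 1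
    intro h8
    rw [ENat.map_eq_top_iff] at h8
    exact h7 h8
  refine ⟨hD1, ?_, hmer.meromorphicTrailingCoeffAt_ne_zero hfo, ?_, ?_, hZ.1, ⟨z₀, hz₀⟩⟩
  · calc κ * deg F ≤ |κ| * deg F :=
          mul_le_mul_of_nonneg_right (le_abs_self _) (Nat.cast_nonneg _)
      _ = |κ| * X.card := by rw [hcard]
      _ ≤ (ε * Real.log n / 2) * X.card := by
          refine mul_le_mul_of_nonneg_right ?_ (by positivity)
          linarith
      _ = ε / 2 * x := by rw [hx]; ring
      _ ≤ _ := h6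
  · rw [e1]
    exact k1.trans h6
  · rw [e2]
    exact k2.trans h6

theorem stm_order (hE : 4 * a ^ 3 + 27 * b ^ 2 ≠ 0) [NeZero N] (hf : IsFormOf a b N f) :
    Order a b N f := fun ε hε =>
  (base hE hf 0 (ε := ε) (δ := min (1 / 2) (ε / 48)) (by positivity) (min_le_left _ _)
    (min_le_right _ _)).mono fun _ _ _ h => h.ord

lemma Fits.up {ε κ δ : ℝ} {Z : ℂ → ℂ} {D : ℝ} {d : ℕ} (h : Fits ε κ δ Z D d) :
    ‖lead Z‖ ≤ D ^ ε := by
  have hD : 0 < D := by linarith [h.one]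
  rw [← Real.log_le_log_iff (norm_pos_iff.2 h.nz) (Real.rpow_pos_of_pos hD _), Real.log_rpow hD]
  have h1 := (abs_le.1 h.law).2
  have h2 := near_nonneg Z δ
  linarith

theorem stm_size (hE : 4 * a ^ 3 + 27 * b ^ 2 ≠ 0) [NeZero N] (hf : IsFormOf a b N f) :
    Size a b N f := fun ε hε =>
  (base hE hf 0 (ε := ε) (δ := min (1 / 2) (ε / 48)) (by positivity) (min_le_left _ _)
    (min_le_right _ _)).mono fun _ _ _ h => ⟨h.nz, h.up⟩

theorem stm_law (hE : 4 * a ^ 3 + 27 * b ^ 2 ≠ 0) [NeZero N] (hf : IsFormOf a b N f) :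
    Law a b N f := fun ε hε =>
  ⟨min (1 / 2) (ε / 48), by positivity, fun δ h1 h2 => (base hE hf 0 (ε := ε) h1
    (h2.trans (min_le_left _ _)) (h2.trans (min_le_right _ _))).mono fun _ _ _ h => h.law⟩

theorem stm_crit (hE : 4 * a ^ 3 + 27 * b ^ 2 ≠ 0) [NeZero N] (hf : IsFormOf a b N f) :
    Criterion a b N f := by
  constructor
  · intro h ε hε
    have h1 := base hE hf 0 (ε := ε / 2) (δ := min (1 / 2) (ε / 2 / 48)) (by positivity)
      (min_le_left _ _) (min_le_right _ _)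
    refine ⟨min (1 / 2) (ε / 2 / 48), by positivity, ((h (ε / 2) (by positivity)).and h1).mono
      fun Z D d hZ => ?_⟩
    obtain ⟨h2, h3⟩ := hZ
    have hD : 0 < D := by linarith [h3.one]
    have h4 := Real.log_le_log (Real.rpow_pos_of_pos hD _) h2
    rw [Real.log_rpow hD] at h4
    have h5 := (abs_le.1 h3.law).2
    linarith
  · intro h ε hε
    obtain ⟨δ, hδ, h1⟩ := h (ε / 2) (by positivity)
    have h2 := base hE hf 0 (ε := ε / 2) (δ := min δ (min (1 / 2) (ε / 2 / 48))) (by positivity)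
      ((min_le_right _ _).trans (min_le_left _ _)) ((min_le_right _ _).trans (min_le_right _ _))
    refine (h1.and h2).mono fun Z D d hZ => ?_
    obtain ⟨h3, h4⟩ := hZ
    have hD : 0 < D := by linarith [h4.one]
    obtain ⟨z₀, hz₀⟩ := h4.ne
    have h5 := near_mono h4.ent hz₀ (min_le_left δ (min (1 / 2) (ε / 2 / 48)))
    rw [← Real.log_le_log_iff (Real.rpow_pos_of_pos hD _) (norm_pos_iff.2 h4.nz),
      Real.log_rpow hD]
    have h6 := (abs_le.1 h4.law).1
    linarith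

/-- the predicted number -/
lemma Fits.pred {ε κ δ : ℝ} {Z : ℂ → ℂ} {D : ℝ} {d : ℕ} (h : Fits ε κ δ Z D d) {S G : ℝ}
    (hG : Real.exp (-(κ * d)) ≤ G) (hS : Predicts ‖lead Z‖ D G S) :
    0 < S ∧ Real.log S = Real.log ‖lead Z‖ + 1 / 2 * Real.log D - Real.log G := by
  have hD : 0 < D := by linarith [h.one]
  have hG0 : 0 < G := (Real.exp_pos _).trans_le hG
  have hD2 : 0 < D ^ (1 / 2 : ℝ) := Real.rpow_pos_of_pos hD _
  have hl : 0 < ‖lead Z‖ := norm_pos_iff.2 h.nz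
  unfold Predicts at hS
  have h1 : S = ‖lead Z‖ * D ^ (1 / 2 : ℝ) / G := by
    rw [hS]
    field_simp
  refine ⟨by rw [h1]; positivity, ?_⟩
  rw [h1, Real.log_div (by positivity) hG0.ne', Real.log_mul hl.ne' hD2.ne', Real.log_rpow hD]

theorem stm_sha (hE : 4 * a ^ 3 + 27 * b ^ 2 ≠ 0) [NeZero N] (hf : IsFormOf a b N f) :
    Sha a b N f := by
  intro ε κ hε
  refine (base hE hf κ (ε := ε / 2) (δ := min (1 / 2) (ε / 2 / 48)) (by positivity)
    (min_le_left _ _) (min_le_right _ _)).mono fun Z D d h S G hG hS => ?_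
  obtain ⟨h1, h2⟩ := h.pred hG hS
  have hD : 0 < D := by linarith [h.one]
  rw [← Real.log_le_log_iff h1 (Real.rpow_pos_of_pos hD _), Real.log_rpow hD, h2]
  have h3 := Real.log_le_log (Real.exp_pos _) hG
  rw [Real.log_exp] at h3
  have h4 := (abs_le.1 h.law).2
  have h5 := near_nonneg Z (min (1 / 2) (ε / 2 / 48))
  have h6 := h.deg
  linarith

theorem stm_shaLaw (hE : 4 * a ^ 3 + 27 * b ^ 2 ≠ 0) [NeZero N] (hf : IsFormOf a b N f) :
    ShaLaw a b N f := by
  intro ε κ hε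
  refine ⟨min (1 / 2) (ε / 2 / 48), by positivity, fun δ h1 h2 => (base hE hf κ (ε := ε / 2) h1
    (h2.trans (min_le_left _ _)) (h2.trans (min_le_right _ _))).mono
      fun Z D d h S G hG hG' hS => ?_⟩
  obtain ⟨h3, h4⟩ := h.pred hG hS
  have hG0 : 0 < G := (Real.exp_pos _).trans_le hG
  have h5 := Real.log_le_log (Real.exp_pos _) hG
  have h6 := Real.log_le_log hG0 hG'
  rw [Real.log_exp] at h5 h6
  have h7 := abs_le.1 h.law
  have h8 := h.deg
  rw [h4, abs_le]
  constructor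
  · linarith [h7.1]
  · linarith [h7.2]

end abelian

/-- **Main theorem.**
Let `E : y² = x³ + a x + b` be an elliptic curve over `ℚ`, `N` its conductor and
`f ∈ S_2(Γ₀(N))` its newform.  Then the statements (0) - (6) hold.  The hypothesis on `f` (the
modularity theorem) holds for the curve `X_0(14)`, so that for this curve the result is
unconditional. -/
theorem result :
    (∀ a b : ℤ, 4 * a ^ 3 + 27 * b ^ 2 ≠ 0 → ∀ (N : ℕ) [NeZero N]
      (f : CuspForm (Gamma0 N : Subgroup (GL (Fin 2) ℝ)) 2), IsFormOf a b N f →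
      Continuation a b N f ∧ Order a b N f ∧ Size a b N f ∧ Law a b N f ∧ Criterion a b N f ∧
        Sha a b N f ∧ ShaLaw a b N f) ∧
    ∃ f : CuspForm (Gamma0 14 : Subgroup (GL (Fin 2) ℝ)) 2, IsFormOf 5805 (-285714) 14 f := by
  refine ⟨fun a b hE N _ f hf => ⟨?_, stm_order hE hf, stm_size hE hf, stm_law hE hf,
    stm_crit hE hf, stm_sha hE hf, stm_shaLaw hE hf⟩, ?_⟩
  · intro n _ hn L _ _ _ F
    obtain ⟨B, G, hTw, hcore⟩ :=
      Pool.Agent.Results.MP_fb225e_nt.ZerosOfBoundedHeight.core hE (conv hf)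
    refine ⟨_, (hw_iff a b f F _).2 (hcore n hn L F), fun Z' h' => ?_⟩
    exact Pool.Agent.Results.MP_fb225e_nt.ZerosOfBoundedHeight.unique ((hw_iff a b f F _).1 h')
      (hcore n hn L F)
  · obtain ⟨f, hf⟩ := Pool.Agent.Results.MP_32c55d_nt.CyclotomicAnalyticRank.inst
    exact ⟨f, hf.one, hf.real, hf.mul, hf.pow, hf.fricke, hf.points⟩

end Pool.Agent.Results.MP_f50388_nt.BrauerSiegelLaw
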