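import Pool.Agent.H463.OL.Tc

/-!
# The refined Birch and Swinnerton-Dyer formula modulo an odd prime `l` over abelian `l`-extensions

`W` is the minimal equation of an elliptic curve `E` over `ℚ` (with any sign of the discriminant and
any type of reduction at `l`), such that `l ∤ #E(𝔽_q)` for some prime `q ∤ 6 l Δ`, and such that the
periods of the newform of `E`, times an integer prime to `l`, are in the period lattice of `E`.
`K ⊂ ℚ(ζ_m)` is a number field of degree `l^n`, with `m` squarefree and prime to `6 l Δ`, in which the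
primes that divide `6 l Δ` split completely.  For `F = ℚ` and for `F = K` let
`x(F) = L(E/F, 1) √|Disc F| #E(F)_tors² / Ω_{E/F}`.  The refined formula modulo `l` says that `x(F)` is a
rational number with denominator prime to `l`, and that its numerator is prime to `l` if and only if the
rank of `E(F)` is zero, `Ш(E/F)[l^∞] = 0` and the Tamagawa product is prime to `l`.

Let `A` be the statement that `l ∤ #E(𝔽_p)` for all primes `p` that divide the discriminant of `K`.  We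
prove that `E` is minimal at all places of `K`, that `x(ℚ)` and `x(K)` have denominators prime to `l`, and

* `l ∤ x(K)` if and only if `l ∤ x(ℚ)` and `A` holds (so `x(K) ≡ 0` if `A` fails);
* if `rank E(K) = 0` and `Ш(E/K)[l^∞] = 0` then `rank E(ℚ) = 0` and `Ш(E/ℚ)[l^∞] = 0`, and the converse
  holds if `A` holds;
* `l` divides the Tamagawa product over `K` if and only if it divides the one over `ℚ`.

So, if `A` holds, the refined formula modulo `l` over `K` is equivalent to the one over `ℚ`, and if the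
value over `ℚ` is prime to `l` then the formula modulo `l` over `ℚ` implies the full `l`-part of the
refined conjecture over `K`: entire continuation, order of vanishing equal to the rank, finiteness of
`Ш(E/K)[l^∞]` and the formula up to `l`-adic units.

The proof.  Analytic side: `L(E/K, s)` is the product of the twists `L(E, χ, s)` over the characters of
`K`, which are even; `τ(χ) L(E, χ⁻¹, 1)` is the real period times a sum of values of `χ` with integral
coefficients (up to `l`-adic units, by the relation of Hecke at `q`), the product over all `χ` is an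
integer, congruent modulo `l` to the product of the sums of the coefficients (`l` is totally ramified in
the fields of the roots of unity of `l`-power order), and the sums are `∏ (a_p - 2)` times the one for
`χ = 1`, where `a_p - 2 ≡ - #E(𝔽_p)` modulo `l` as `p ≡ 1` modulo `l`.  Algebraic side: descent of
`l`-torsion cocycles along extensions of `l`-power degree (files `R901/LD` of the library) and the
restriction map of the Tate-Shafarevich groups.
-/

set_option autoImplicit false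

open NumberField NumberField.InfinitePlace IsDedekindDomain WeierstrassCurve MeasureTheory
open UpperHalfPlane MatrixGroups CongruenceSubgroup

namespace Pool.Agent.Results.MP_f50388_nt.FormulaModOddPrimes

open scoped Classical

open Pool.Agent.TH841.NF.D (Sha)

/-- The curve given by the equation of `W` over the ring `R`. -/
abbrev base (W : WeierstrassCurve ℤ) (R : Type) [CommRing R] : WeierstrassCurve R :=
  W.map (Int.castRingHom R)

/-- The number of the affine points `(x, y)` over the ring `R`. -/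
noncomputable def pts (W : WeierstrassCurve ℤ) (R : Type) [CommRing R] : ℕ :=
  Nat.card {P : R × R // (base W R).toAffine.Equation P.1 P.2}

section

variable {K : Type} [Field K] [NumberField K]

/-- `a_v = N v + 1 - #W(k_v)`, the points over the residue field `k_v` counted with the point at
infinity. -/
noncomputable def a (W : WeierstrassCurve ℤ) (v : HeightOneSpectrum (𝓞 K)) : ℤ :=
  (Ideal.absNorm v.asIdeal : ℤ) - pts W (𝓞 K ⧸ v.asIdeal)

/-- The Euler factor of `L(W/K, s)` at `v` : `(1 - a_v N v^(-s) + N v^(1 - 2 s))⁻¹` if the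
discriminant is a unit at `v`, and `(1 - a_v N v^(-s))⁻¹` otherwise. -/
noncomputable def factor (W : WeierstrassCurve ℤ) (s : ℂ) (v : HeightOneSpectrum (𝓞 K)) : ℂ :=
  (1 - (a W v : ℂ) * (Ideal.absNorm v.asIdeal : ℂ) ^ (-s) +
    if ((W.Δ : ℤ) : 𝓞 K) ∈ v.asIdeal then 0 else (Ideal.absNorm v.asIdeal : ℂ) ^ (1 - 2 * s))⁻¹

/-- The equation is minimal at the finite place `v` of `K`: no change of variables over `K` that
keeps the coefficients integral at `v` decreases the valuation of the discriminant. -/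
def MinimalAt (W : WeierstrassCurve ℤ) (v : HeightOneSpectrum (𝓞 K)) : Prop :=
  ∀ C : VariableChange K, v.valuation K (C • base W K).a₁ ≤ 1 →
    v.valuation K (C • base W K).a₂ ≤ 1 → v.valuation K (C • base W K).a₃ ≤ 1 →
    v.valuation K (C • base W K).a₄ ≤ 1 → v.valuation K (C • base W K).a₆ ≤ 1 →
    v.valuation K (C • base W K).Δ ≤ v.valuation K (base W K).Δ

/-- `E⁰(K_v)`, the group of the points of `W` over the completion `K_v` with nonsingular reduction:
the points `(x, y)` where `x` is not integral, or one of the partial derivatives of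
`y² + a₁ x y + a₃ y - x³ - a₂ x² - a₄ x - a₆` is a unit at `(x, y)`, and the point at infinity. -/
noncomputable def nonsing (W : WeierstrassCurve ℤ) (v : HeightOneSpectrum (𝓞 K)) :
    AddSubgroup (base W (v.adicCompletion K)).toAffine.Point :=
  AddSubgroup.closure {P | ∀ x y h, P = Affine.Point.some x y h →
    1 < Valued.v x ∨ Valued.v (W.a₁ * y - (3 * x ^ 2 + 2 * W.a₂ * x + W.a₄)) = 1 ∨
      Valued.v (2 * y + W.a₁ * x + W.a₃) = 1}

/-- The Tamagawa number `c_v = [E(K_v) : E⁰(K_v)]` of a minimal equation. -/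
noncomputable def c (W : WeierstrassCurve ℤ) (v : HeightOneSpectrum (𝓞 K)) : ℕ :=
  (nonsing W v).index

end

section

variable (K : Type) [Field K] [NumberField K]

/-- The product of the Tamagawa numbers.  For an equation that is minimal at all finite places of `K`
this is the number `C_{E/K}` of the refined formula. -/
noncomputable def Tam (W : WeierstrassCurve ℤ) : ℕ := ∏ᶠ v : HeightOneSpectrum (𝓞 K), c W v

/-- The `l`-primary part of the Tate-Shafarevich group over `K`. -/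
def ShaL (l : ℕ) (W : WeierstrassCurve ℤ) : Set (Sha (base W K)) := {x | ∃ n : ℕ, l ^ n • x = 0}

/-- The torsion subgroup of the group of the points over `K`. -/
def tors (W : WeierstrassCurve ℤ) : Set (base W K).toAffine.Point := {P | ∃ n : ℕ, 0 < n ∧ n • P = 0}

/-- The rank of the group of the points over `K`. -/
noncomputable def rank (W : WeierstrassCurve ℤ) : ℕ := Module.finrank ℤ (base W K).toAffine.Point

end

/-- `4 x³ + b₂ x² + 2 b₄ x + b₆ = (2 y + a₁ x + a₃)²`, where `b₂ = a₁² + 4 a₂`,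
`b₄ = 2 a₄ + a₁ a₃`, `b₆ = a₃² + 4 a₆`. -/
def cubic (W : WeierstrassCurve ℤ) {R : Type} [CommRing R] (x : R) : R :=
  4 * x ^ 3 + W.b₂ * x ^ 2 + 2 * W.b₄ * x + W.b₆

/-- `∫_{W(ℝ)} |ω|` with `ω = dx / (2 y + a₁ x + a₃)`, as an integral over `x`: two real points lie
over each `x` with `cubic x > 0`. -/
noncomputable def realPeriod (W : WeierstrassCurve ℤ) : ℝ :=
  2 * ∫ x in {x : ℝ | 0 < cubic W x}, 1 / √(cubic W x)

/-- `2 ∫_{W(ℂ)} |ω ∧ ω̄|`, where `|ω ∧ ω̄| = du dv` in a local parameter `z = u + i v` with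
`dz = ω`, as an integral over `x`: two points lie over a general `x`, and `|ω ∧ ω̄|` is the area
element of the plane of `x` divided by `|cubic x|`. -/
noncomputable def complexPeriod (W : WeierstrassCurve ℤ) : ℝ := 2 * (2 * ∫ x : ℂ, 1 / ‖cubic W x‖)

/-- The global period `Ω_{E/K}`. -/
noncomputable def Omega (K : Type) [Field K] [NumberField K] (W : WeierstrassCurve ℤ) : ℝ :=
  realPeriod W ^ nrRealPlaces K * complexPeriod W ^ nrComplexPlaces K

/-- `x` is the value `L(E/K, 1) √|Disc K| (#E(K)_tors)² / Ω`, where `L` is the entire function given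
by the Euler product of `W` over `K` for `Re s > 3/2`. -/
def HasValue (K : Type) [Field K] [NumberField K] (W : WeierstrassCurve ℤ) (x : ℚ) : Prop :=
  ∃ L : ℂ → ℂ, Differentiable ℂ L ∧
    (∀ s : ℂ, 3 / 2 < s.re → HasProd (factor (K := K) W s) (L s)) ∧
    L 1 * √|(discr K : ℝ)| * (Nat.card (tors K W) : ℂ) ^ 2 = x * Omega K W

/-- **The refined formula modulo `l`** for `W` over `K` (the equation being minimal): the `L`-function
is entire, `x = L(E/K, 1) √|Disc K| (#E(K)_tors)² / Ω` is a rational number with denominator prime to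
`l`, and its numerator is prime to `l` if and only if the rank is zero, the `l`-primary part of the
Tate-Shafarevich group is zero and the product of the Tamagawa numbers is prime to `l`.  (The
conjecture says that `x = #Ш Tam` if the rank is zero, and `x = 0` otherwise.) -/
def BSDMod (l : ℕ) (K : Type) [Field K] [NumberField K] (W : WeierstrassCurve ℤ) : Prop :=
  ∃ x : ℚ, HasValue K W x ∧ ¬ l ∣ x.den ∧
    (¬ (l : ℤ) ∣ x.num ↔ rank K W = 0 ∧ ShaL K l W = {0} ∧ ¬ l ∣ Tam K W)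

/-- **The `l`-part of the refined conjecture** for `W` over `K` (the equation being minimal) in rank
zero: the `L`-function is entire, its order at `s = 1` is the rank, which is zero, the `l`-primary
part of the Tate-Shafarevich group is finite, and `L(1) √|Disc K| / Ω` is a rational number with the same
`l`-adic valuation as `#Ш[l^∞] Tam / #tors²`. -/
structure LPart (l : ℕ) (K : Type) [Field K] [NumberField K] (W : WeierstrassCurve ℤ) : Prop where
  rank : rank K W = 0
  sha : (ShaL K l W).Finite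
  formula : ∃ L : ℂ → ℂ, Differentiable ℂ L ∧
    (∀ s : ℂ, 3 / 2 < s.re → HasProd (factor (K := K) W s) (L s)) ∧ analyticOrderAt L 1 = 0 ∧
    ∃ r : ℚ, L 1 * √|(discr K : ℝ)| = r * Omega K W ∧ r ≠ 0 ∧
      padicValRat l r = padicValRat l
        ((Nat.card (ShaL K l W) * Tam K W : ℚ) / (Nat.card (tors K W) : ℚ) ^ 2)

section modular

variable {N : ℕ}

/-- The `n`-th coefficient of the cusp form `f = ∑ a_n q^n`. -/
noncomputable def co (f : CuspForm (Gamma0 N : Subgroup (GL (Fin 2) ℝ)) 2) (n : ℕ) : ℂ :=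
  (qExpansion 1 f).coeff n

/-- `2 π i ∫_(i∞)^z f(w) dw = ∑ a_n / n e^(2 π i n z)`. -/
noncomputable def prim (f : CuspForm (Gamma0 N : Subgroup (GL (Fin 2) ℝ)) 2) (z : ℂ) : ℂ :=
  ∑' n : ℕ, co f n / n * Complex.exp (2 * Real.pi * Complex.I * n * z)

/-- The cusp form `f` of weight two for `Γ₀(N)` is the newform of `W`: it is a normalised eigenform
of the Hecke operators and of the Fricke involution, with real coefficients that satisfy the bounds
of Hasse, `N` has the same prime divisors as the discriminant, and `a_p = p + 1 - #W(𝔽_p)`. -/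
structure IsNewform (W : WeierstrassCurve ℤ) (N : ℕ)
    (f : CuspForm (Gamma0 N : Subgroup (GL (Fin 2) ℝ)) 2) : Prop where
  one : co f 1 = 1
  real : ∀ n, (co f n).im = 0
  mul : ∀ m n : ℕ, Nat.Coprime m n → co f (m * n) = co f m * co f n
  pow : ∀ p j : ℕ, p.Prime → co f (p ^ (j + 2)) = co f p * co f (p ^ (j + 1)) -
      (if p ∣ N then 0 else (p : ℂ) * co f (p ^ j))
  good : ∀ p : ℕ, p.Prime → ¬ p ∣ N → ‖co f p‖ ≤ 2 * Real.sqrt p
  bad : ∀ p : ℕ, p.Prime → p ∣ N → ‖co f p‖ ≤ 1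
  fricke : ∃ w : ℝ, (w = 1 ∨ w = -1) ∧ ∀ τ τ' : ℍ, (τ' : ℂ) * ((N : ℂ) * (τ : ℂ)) = -1 →
    f τ' = -(w : ℂ) * (N : ℂ) * (τ : ℂ) ^ 2 * f τ
  level : ∀ p : ℕ, p.Prime → (p ∣ N ↔ (p : ℤ) ∣ W.Δ)
  coef : ∀ p : ℕ, p.Prime → co f p = (p : ℂ) - (pts W (ZMod p) : ℂ)

end modular

section proof

open Pool.Agent.Y702
open Pool.Agent.H463.OL

variable {N : ℕ} [NeZero N]

omit [NeZero N] in
lemma isForm {W : WeierstrassCurve ℤ} {f : CuspForm (Gamma0 N : Subgroup (GL (Fin 2) ℝ)) 2}
    (h : IsNewform W N f) : G.IsForm W N f :=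
  ⟨h.one, h.real, h.mul, h.pow, h.good, h.bad, h.fricke, h.level, h.coef⟩

lemma c_eq {K : Type} [Field K] [NumberField K] (W : WeierstrassCurve ℤ)
    (v : HeightOneSpectrum (𝓞 K)) : c W v = Pool.Agent.R425.G.cv W v := rfl

lemma cubic_eq (W : WeierstrassCurve ℤ) {R : Type} [CommRing R] (x : R) :
    cubic W x = G.cubic W x := rfl

lemma sha_iff' {K : Type} [Field K] [NumberField K] (l : ℕ) (W : WeierstrassCurve ℤ) :
    (∀ s : Sha (base W K), l • s = 0 → s = 0) ↔ ShaL K l W = {0} := by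
  constructor
  · intro h
    have key : ∀ (j : ℕ) (x : Sha (base W K)), l ^ j • x = 0 → x = 0 := by
      intro j
      induction j with
      | zero => intro x hx; rw [pow_zero, one_nsmul] at hx; exact hx
      | succ j ih =>
        intro x hx
        rw [pow_succ, mul_nsmul] at hx
        exact ih x (h _ hx)
    ext x
    constructor
    · rintro ⟨k, hk⟩
      exact key k x hk
    · rintro rfl
      exact ⟨0, nsmul_zero _⟩
  · intro h s hs
    have h1 : s ∈ ShaL K l W := ⟨1, by rw [pow_one]; exact hs⟩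
    rw [h] at h1
    exact h1

/-- the two forms of the algebraic side -/
lemma side_iff {K : Type} [Field K] [NumberField K] (l : ℕ) (W : WeierstrassCurve ℤ)
    (hW : W.Δ ≠ 0) :
    (rank K W = 0 ∧ ShaL K l W = {0}) ↔ (Finite (base W K).toAffine.Point ∧
      ∀ s : Sha (base W K), l • s = 0 → s = 0) := by
  rw [sha_iff']
  have h : rank K W = 0 ↔ Finite (base W K).toAffine.Point := Pool.Agent.R425.G.rank_iff W hW
  rw [h]

/-- the value is unique -/
lemma value_uniq {K : Type} [Field K] [NumberField K] (W : WeierstrassCurve ℤ)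
    (hO : Omega K W ≠ 0) {x y : ℚ} (hx : HasValue K W x) (hy : HasValue K W y) : x = y := by
  obtain ⟨L1, d1, p1, e1⟩ := hx
  obtain ⟨L2, d2, p2, e2⟩ := hy
  have h : L1 = L2 := Pool.Agent.R425.G.L_uniq (W := W) (K := K) d1 d2 p1 p2
  rw [h, e2] at e1
  have h1 : (Omega K W : ℂ) ≠ 0 := by exact_mod_cast hO
  have h2 := mul_right_cancel₀ h1 e1
  exact_mod_cast h2.symm

/-- the value in terms of integers -/
lemma value_of {l : ℕ} (hl : l.Prime) {K : Type} [Field K] [NumberField K]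
    (W : WeierstrassCurve ℤ) {H : ℂ → ℂ} (hHd : Differentiable ℂ H)
    (hHp : ∀ s : ℂ, 3 / 2 < s.re → HasProd (factor (K := K) W s) (H s)) {r : ℝ} (hr : H 1 = r)
    {D M' : ℤ} (hD : ¬ (l : ℤ) ∣ D) (hT : ¬ l ∣ Nat.card (tors K W))
    (hval : |(D : ℝ)| * (|r| * √|(discr K : ℝ)|) = |(M' : ℝ)| * Omega K W) :
    ∃ x : ℚ, HasValue K W x ∧ ¬ l ∣ x.den ∧ ((l : ℤ) ∣ x.num ↔ (l : ℤ) ∣ M') := by
  have hlI : Prime (l : ℤ) := Nat.prime_iff_prime_int.1 hl
  obtain ⟨ε, hε, hεr⟩ : ∃ ε : ℤ, (ε = 1 ∨ ε = -1) ∧ r = ε * |r| := by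
    rcases le_total 0 r with h | h
    · exact ⟨1, Or.inl rfl, by rw [abs_of_nonneg h]; push_cast; ring⟩
    · exact ⟨-1, Or.inr rfl, by rw [abs_of_nonpos h]; push_cast; ring⟩
  have hDo' : ¬ (l : ℤ) ∣ |D| := by
    rw [dvd_abs]
    exact hD
  have hD0 : (|D| : ℤ) ≠ 0 := by
    intro h
    rw [h] at hDo'
    exact hDo' (dvd_zero _)
  have hD0' : ((|D| : ℤ) : ℝ) ≠ 0 := by exact_mod_cast hD0
  obtain ⟨h1, h2⟩ := frac_l hl (ε * |M'| * (Nat.card (tors K W) : ℤ) ^ 2) |D| hDo'
  have hreal : r * √|(discr K : ℝ)| * (Nat.card (tors K W) : ℝ) ^ 2 =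
      ((ε * |M'| * (Nat.card (tors K W) : ℤ) ^ 2 : ℤ) : ℝ) / ((|D| : ℤ) : ℝ) * Omega K W := by
    rw [div_mul_eq_mul_div, eq_div_iff hD0', hεr]
    push_cast
    linear_combination (ε : ℝ) * (Nat.card (tors K W) : ℝ) ^ 2 * hval
  refine ⟨((ε * |M'| * (Nat.card (tors K W) : ℤ) ^ 2 : ℤ) : ℚ) / (|D| : ℤ), ⟨H, hHd, hHp, ?_⟩,
    h1, ?_⟩
  · rw [hr]
    have h5 := congrArg (fun y : ℝ => (y : ℂ)) hreal
    simp only [Complex.ofReal_mul, Complex.ofReal_pow, Complex.ofReal_natCast, Complex.ofReal_div,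
      Complex.ofReal_intCast] at h5
    rw [h5, Rat.cast_div, Rat.cast_intCast, Rat.cast_intCast]
  · rw [h2]
    constructor
    · intro h
      rcases hlI.dvd_or_dvd h with h3 | h3
      · rcases hlI.dvd_or_dvd h3 with h4 | h4
        · exfalso
          rcases hε with rfl | rfl
          · exact hlI.not_isUnit (isUnit_of_dvd_one h4)
          · exact hlI.not_isUnit (isUnit_of_dvd_unit h4 (by decide))
        · exact (dvd_abs _ _).1 h4
      · exfalso
        have h4 := hlI.dvd_of_dvd_pow h3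
        exact hT (Int.natCast_dvd_natCast.1 h4)
    · intro h
      exact (((dvd_abs _ _).2 h).mul_left ε).mul_right _

lemma omega_eq {K : Type} [Field K] [NumberField K] (W : WeierstrassCurve ℤ) {k : ℕ}
    (h1 : nrComplexPlaces K = 0) (h2 : nrRealPlaces K = k) : Omega K W = realPeriod W ^ k := by
  unfold Omega
  rw [h1, h2, pow_zero, mul_one]

end proof

open Pool.Agent.H463.OL in
/-- **Main theorem.** Let `W` be a Weierstrass equation with integral coefficients and discriminant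
`Δ ≠ 0`, minimal at all primes; let `f` be the newform of `W`, of a level `N` with the same prime divisors
as `Δ`; let `Λ` be the period lattice of the differential `dx / (2 y + a₁ x + a₃)` of `W` (the lattice with
`g₂ = c₄ / 12`, `g₃ = c₆ / 216`).  Let `l` be an odd prime, and assume that `c` times the periods of
`2 π i f(z) dz` on `Γ₀(N)` are in `Λ` for an integer `c` prime to `l`, and that the number of the points of
`W` modulo `q` is prime to `l` for some prime `q` that does not divide `6 l Δ`.  Let `m` be squarefree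
and prime to `6 l Δ`, `M` the `m`-th cyclotomic field, `K` a subfield of degree `l^n` such that the places
that divide `6 l Δ` have a residue field of prime order, that is, the primes that divide `6 l Δ` split
completely in `K`.  Let `A` be the statement that the number of the points of `W` modulo `p` is prime to
`l` for all primes `p` that divide the discriminant of `K`. -/
theorem result {N : ℕ} [NeZero N] (W : WeierstrassCurve ℤ) (hΔ : W.Δ ≠ 0)
    (hmin : ∀ p : HeightOneSpectrum (𝓞 ℚ), MinimalAt W p)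
    (f : CuspForm (Gamma0 N : Subgroup (GL (Fin 2) ℝ)) 2) (hf : IsNewform W N f)
    (Λ : PeriodPair) (hg₂ : Λ.g₂ = (W.c₄ : ℂ) / 12) (hg₃ : Λ.g₃ = (W.c₆ : ℂ) / 216)
    (l : ℕ) (hl : l.Prime) (hl2 : l ≠ 2)
    (hman : ∃ c : ℤ, ¬ (l : ℤ) ∣ c ∧ ∀ γ ∈ Gamma0 N, ∀ z : ℍ,
      (c : ℂ) * (prim f ((γ • z : ℍ) : ℂ) - prim f (z : ℂ)) ∈ Λ.lattice)
    (q : ℕ) (hq : q.Prime) (hqΔ : ¬ (q : ℤ) ∣ 6 * l * W.Δ) (hqo : ¬ l ∣ pts W (ZMod q) + 1)
    (m : ℕ) [NeZero m] (hsq : Squarefree m)
    (hm : ∀ p : ℕ, p.Prime → p ∣ m → ¬ (p : ℤ) ∣ 6 * l * W.Δ)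
    (M : Type) [Field M] [NumberField M] [IsCyclotomicExtension {m} ℚ M]
    (K : IntermediateField ℚ M) (n : ℕ) (hn : Module.finrank ℚ K = l ^ n)
    (hsplit : ∀ v : HeightOneSpectrum (𝓞 K), ((6 * l * W.Δ : ℤ) : 𝓞 K) ∈ v.asIdeal →
      (Ideal.absNorm v.asIdeal).Prime)
    (A : Prop) (hA : A ↔ ∀ p : ℕ, p.Prime → (p : ℤ) ∣ discr K → ¬ l ∣ pts W (ZMod p) + 1) :
    ((∀ v : HeightOneSpectrum (𝓞 K), MinimalAt W v) ∧
      {v : HeightOneSpectrum (𝓞 K) | c W v ≠ 1}.Finite ∧
      {p : HeightOneSpectrum (𝓞 ℚ) | c W p ≠ 1}.Finite ∧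
      (l ∣ Tam K W ↔ l ∣ Tam ℚ W)) ∧
    (∃ x₀ x : ℚ, HasValue ℚ W x₀ ∧ HasValue K W x ∧ ¬ l ∣ x₀.den ∧ ¬ l ∣ x.den ∧
      (¬ (l : ℤ) ∣ x.num ↔ ¬ (l : ℤ) ∣ x₀.num ∧ A) ∧
      (A → BSDMod l ℚ W → ¬ (l : ℤ) ∣ x₀.num → LPart l K W)) ∧
    (rank K W = 0 ∧ ShaL K l W = {0} → rank ℚ W = 0 ∧ ShaL ℚ l W = {0}) ∧
    (A → rank ℚ W = 0 ∧ ShaL ℚ l W = {0} → rank K W = 0 ∧ ShaL K l W = {0}) ∧
    (A → (BSDMod l ℚ W ↔ BSDMod l K W)) := by
  have hlI : Prime (l : ℤ) := Nat.prime_iff_prime_int.1 hl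
  have hgal : IsGalois ℚ K := Pool.Agent.Y702.L.gal_F m M K
  have hfI := isForm hf
  have hunr : ∀ (p : ℕ), p.Prime → ¬ p ∣ m → ∀ v : HeightOneSpectrum (𝓞 K), (p : 𝓞 K) ∈ v.asIdeal →
      v.valuation K (p : K) = WithZero.exp (-1 : ℤ) :=
    fun p hp hpm v hv => Pool.Agent.Y702.Fn.unr m M K hp hpm v hv
  have hdiv2 : ∀ p : ℕ, (p : ℤ) ∣ 2 * W.Δ → (p : ℤ) ∣ 6 * l * W.Δ := by
    intro p h
    have e : (6 * l * W.Δ : ℤ) = (2 * W.Δ) * (3 * l) := by ring
    rw [e]
    exact h.mul_right _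
  have hm2 : ∀ p : ℕ, p.Prime → p ∣ m → ¬ (p : ℤ) ∣ 2 * W.Δ := fun p hp hpm h =>
    hm p hp hpm (hdiv2 p h)
  have hsplit2 : ∀ v : HeightOneSpectrum (𝓞 K), ((2 * W.Δ : ℤ) : 𝓞 K) ∈ v.asIdeal →
      (Ideal.absNorm v.asIdeal).Prime := by
    intro v hv
    apply hsplit
    have e : ((6 * l * W.Δ : ℤ) : 𝓞 K) = ((2 * W.Δ : ℤ) : 𝓞 K) * ((3 * l : ℤ) : 𝓞 K) := by
      push_cast; ring
    rw [e]
    exact Ideal.mul_mem_right _ _ hv
  have hdisc : ∀ p : ℕ, p.Prime → (p : ℤ) ∣ discr K → ¬ (p : ℤ) ∣ 6 * l * W.Δ := by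
    intro p hp hpd
    have hpm : p ∣ m := by
      by_contra hcon
      exact Pool.Agent.R425.not_disc K hp (fun v hv => hunr p hp hcon v hv) hpd
    exact hm p hp hpm
  -- the places
  have hbelow : ∀ v : HeightOneSpectrum (𝓞 K), ((W.Δ : ℤ) : 𝓞 K) ∈ v.asIdeal →
      (∀ x : ℚ, v.valuation K (algebraMap ℚ K x) = (v.under (𝓞 ℚ)).valuation ℚ x) ∧
      (Ideal.absNorm v.asIdeal).Prime := by
    intro v hv
    have h2 : ((2 * W.Δ : ℤ) : 𝓞 K) ∈ v.asIdeal := by
      push_cast
      exact Ideal.mul_mem_left _ _ hv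
    refine ⟨?_, hsplit2 v h2⟩
    set q := Pool.Agent.H921R2.TatePole.below v with hq
    have h5 : ((q : ℕ) : ℤ) ∣ 2 * W.Δ := by
      have h6 : (((2 * W.Δ).natAbs : ℕ) : 𝓞 K) ∈ v.asIdeal := by
        rcases Int.natAbs_eq (2 * W.Δ) with h8 | h8
        · rw [h8] at h2
          rw [Int.cast_natCast] at h2
          exact h2
        · rw [h8, Int.cast_neg, neg_mem_iff, Int.cast_natCast] at h2
          exact h2
      rw [Pool.Agent.H82R3.EK.natCast_mem_iff] at h6
      exact Int.natCast_dvd.2 h6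
    have hqm : ¬ (q : ℕ) ∣ m := fun h => (hm2 _ q.2 h) h5
    exact Pool.Agent.Y702.G.val_eq v _ rfl q
      (hunr _ q.2 hqm v ((Pool.Agent.H82R3.EK.natCast_mem_iff v _).2 dvd_rfl))
  have hTam : l ∣ Tam K W ↔ l ∣ Tam ℚ W := tam_l W hl hΔ m hm2 hunr hbelow
  have hminK : ∀ v : HeightOneSpectrum (𝓞 K), MinimalAt W v := by
    intro v
    by_cases hv : ((W.Δ : ℤ) : 𝓞 K) ∈ v.asIdeal
    · obtain ⟨h1, h2⟩ := hbelow v hv
      exact Pool.Agent.Y852.GS.s_mins W K v _ h1 h2 (hmin _)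
    · intro C h1 h2 h3 h4 h6
      have e : (base W K).Δ = (W.Δ : K) := by
        rw [WeierstrassCurve.map_Δ]
        simp
      rw [e, Pool.Agent.R425.G.unit_of W v hv]
      exact Pool.Agent.Y702.Fn.disc_le v _ h1 h2 h3 h4 h6
  -- torsion
  obtain ⟨hnoQ, hnoK⟩ := no_tor_both hΔ hl hq hqΔ hqo K hn
  have htQ : ¬ l ∣ Nat.card (tors ℚ W) := tor_card ℚ W hΔ hl hnoQ
  have htK : ¬ l ∣ Nat.card (tors K W) := tor_card K W hΔ hl hnoK
  -- the real period
  obtain ⟨hΩ, hlat⟩ := lat_real W hΔ Λ hg₂ hg₃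
  have hΩ' : 0 < realPeriod W := hΩ
  obtain ⟨cc, hcc, hman'⟩ := hman
  have hPer : PerL f (realPeriod W) (Λ.lattice : Set ℂ) cc := by
    refine ⟨hΩ', hlat, ?_⟩
    rintro x ⟨γ, rfl⟩
    have h1 := Pool.Agent.Y18.BSD.per_spec f (Additive.toMul γ) UpperHalfPlane.I
    have h2 := hman' _ (Additive.toMul γ).2 UpperHalfPlane.I
    have h3 : prim f ((((Additive.toMul γ : Gamma0 N) : SL(2, ℤ)) • UpperHalfPlane.I : ℍ) : ℂ) -
        prim f (UpperHalfPlane.I : ℂ) = Pool.Agent.Y18.BSD.per f (Additive.toMul γ) := by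
      have h4 : prim f ((((Additive.toMul γ : Gamma0 N) : SL(2, ℤ)) • UpperHalfPlane.I : ℍ) : ℂ) =
          prim f (UpperHalfPlane.I : ℂ) + Pool.Agent.Y18.BSD.per f (Additive.toMul γ) := h1
      rw [h4]
      ring
    rw [h3] at h2
    exact h2
  have hqN : ¬ q ∣ N := by
    intro h
    exact hqΔ (((hfI.level q hq).1 h).mul_left _)
  obtain ⟨D, hD⟩ : ∃ D : ℤ, D = 2 * cc * ((q : ℤ) + 1 - ((q : ℤ) - pts W (ZMod q))) := ⟨_, rfl⟩
  obtain ⟨B, hB⟩ : ∃ B : ℚ → ℤ, ∀ r, (D : ℝ) * (Pool.Agent.Y18.BSD.bv f r).re =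
      B r * realPeriod W := by
    obtain ⟨B, hB⟩ := exists_coord hfI hPer hq hqN
    refine ⟨B, fun r => ?_⟩
    rw [hD]
    exact hB r
  have hDl : ¬ (l : ℤ) ∣ D := by
    have e : D = 2 * cc * ((pts W (ZMod q) + 1 : ℕ) : ℤ) := by
      rw [hD]; push_cast; ring
    rw [e]
    intro h
    rcases hlI.dvd_or_dvd h with h1 | h1
    · rcases hlI.dvd_or_dvd h1 with h2 | h2
      · have h3 : l ∣ 2 := by exact_mod_cast h2
        exact hl2 ((Nat.prime_dvd_prime_iff_eq hl Nat.prime_two).1 h3)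
      · exact hcc h2
    · exact hqo (Int.natCast_dvd_natCast.1 h1)
  have hcoN : Nat.Coprime m N := by
    rw [Nat.coprime_iff_gcd_eq_one]
    by_contra h
    obtain ⟨p, hp, hp2⟩ := Nat.exists_prime_and_dvd h
    have h3 := (hfI.level p hp).1 (hp2.trans (Nat.gcd_dvd_right _ _))
    exact (hm p hp (hp2.trans (Nat.gcd_dvd_left _ _))) (Dvd.dvd.mul_left h3 _)
  obtain ⟨H, hHd, hHp, him, -, ⟨hr2, hr1⟩, M', hM', hval⟩ := l_mainO hl hl2 hΔ hΩ' hfI hB m hsq hcoN
    M K n hn hsplit2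
  have hM'' : ¬ (l : ℤ) ∣ M' ↔ ¬ (l : ℤ) ∣ B 0 ∧ A := hM'.trans (and_congr_right fun _ => hA.symm)
  have hOK : Omega K W = realPeriod W ^ (l ^ n) := omega_eq W hr2 hr1
  have hOQ : Omega ℚ W = realPeriod W := by
    rw [omega_eq W (nrComplexPlaces_eq_zero_of_finrank_eq_one (Module.finrank_self ℚ))
      (nrRealPlaces_eq_one_of_finrank_eq_one (Module.finrank_self ℚ)), pow_one]
  have hOK0 : Omega K W ≠ 0 := by rw [hOK]; positivity
  have hOQ0 : Omega ℚ W ≠ 0 := by rw [hOQ]; exact hΩ'.ne'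
  -- the value over `ℚ`
  obtain ⟨x₀, hx₀, hx₀d, hx₀n⟩ : ∃ x₀ : ℚ, HasValue ℚ W x₀ ∧ ¬ l ∣ x₀.den ∧
      ((l : ℤ) ∣ x₀.num ↔ (l : ℤ) ∣ B 0) := by
    obtain ⟨L₀, hL1, hL2, hL3⟩ := Pool.Agent.R425.G.exists_LQ hfI
    refine value_of hl W hL1 hL2 (r := (Pool.Agent.Y18.BSD.bv f 0).re) ?_ hDl htQ ?_
    · rw [hL3]
      exact bv_zero_real hfI
    · rw [hOQ]
      simp only [Rat.numberField_discr, Int.cast_one, abs_one, Real.sqrt_one, mul_one]
      rw [← abs_mul, hB 0, abs_mul, abs_of_pos hΩ']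
  -- the value over `K`
  obtain ⟨x, hx, hxd, hxn⟩ : ∃ x : ℚ, HasValue K W x ∧ ¬ l ∣ x.den ∧
      ((l : ℤ) ∣ x.num ↔ (l : ℤ) ∣ M') := by
    have hre : H 1 = ((H 1).re : ℂ) := Complex.ext rfl (by rw [him]; rfl)
    have hnorm : ‖H 1‖ = |(H 1).re| := by
      rw [hre, Complex.norm_real, Real.norm_eq_abs, Complex.ofReal_re]
    refine value_of hl W hHd hHp hre (D := D ^ (l ^ n)) (fun h => hDl (hlI.dvd_of_dvd_pow h)) htK ?_
    rw [hOK, ← hval, hnorm, Int.cast_pow, abs_pow]
  have hxx : ¬ (l : ℤ) ∣ x.num ↔ ¬ (l : ℤ) ∣ x₀.num ∧ A := by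
    rw [hxn, hM'', hx₀n]
  -- the algebraic side
  have hdown : rank K W = 0 ∧ ShaL K l W = {0} → rank ℚ W = 0 ∧ ShaL ℚ l W = {0} := by
    rw [side_iff l W hΔ, side_iff l W hΔ]
    exact down_main hΔ hl hq hqΔ hqo K hn
  have hup : A → rank ℚ W = 0 ∧ ShaL ℚ l W = {0} → rank K W = 0 ∧ ShaL K l W = {0} := by
    intro hA'
    rw [side_iff l W hΔ, side_iff l W hΔ]
    exact (alg_main hΔ hl hl2 hq hqΔ hqo K hn hsplit (fun p hp hpd =>
      ⟨hdisc p hp hpd, hA.1 hA' p hp hpd⟩)).2.2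
  have hmod : A → (BSDMod l ℚ W ↔ BSDMod l K W) := by
    intro hA'
    constructor
    · rintro ⟨y, hy, hyd, hyn⟩
      rw [value_uniq W hOQ0 hy hx₀] at hyn
      refine ⟨x, hx, hxd, ?_⟩
      rw [hxx, hyn, hTam]
      constructor
      · rintro ⟨⟨h1, h2, h3⟩, h4⟩
        obtain ⟨h5, h6⟩ := hup h4 ⟨h1, h2⟩
        exact ⟨h5, h6, h3⟩
      · rintro ⟨h1, h2, h3⟩
        obtain ⟨h4, h5⟩ := hdown ⟨h1, h2⟩
        exact ⟨⟨h4, h5, h3⟩, hA'⟩
    · rintro ⟨y, hy, hyd, hyn⟩
      rw [value_uniq W hOK0 hy hx] at hyn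
      refine ⟨x₀, hx₀, hx₀d, ?_⟩
      rw [hTam] at hyn
      constructor
      · intro h
        obtain ⟨h1, h2, h3⟩ := hyn.1 (hxx.2 ⟨h, hA'⟩)
        obtain ⟨h4, h5⟩ := hdown ⟨h1, h2⟩
        exact ⟨h4, h5, h3⟩
      · rintro ⟨h1, h2, h3⟩
        obtain ⟨h4, h5⟩ := hup hA' ⟨h1, h2⟩
        exact (hxx.1 (hyn.2 ⟨h4, h5, h3⟩)).1
  refine ⟨⟨hminK, Pool.Agent.R425.G.cv_fin W hΔ, Pool.Agent.R425.G.cv_fin W hΔ, hTam⟩,
    ⟨x₀, x, hx₀, hx, hx₀d, hxd, hxx, ?_⟩, hdown, hup, hmod⟩
  -- the `l`-part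
  intro hA' hBQ h0
  have hFl : Fact l.Prime := ⟨hl⟩
  obtain ⟨y, hy, hyd, hyn⟩ := (hmod hA').1 hBQ
  have hyx := value_uniq W hOK0 hy hx
  subst hyx
  have hnum := hxx.2 ⟨h0, hA'⟩
  obtain ⟨hrk, hsha, htam⟩ := hyn.1 hnum
  obtain ⟨L, hL1, hL2, hL3⟩ := hy
  have ht0 : (Nat.card (tors K W) : ℂ) ≠ 0 := by
    have : Nat.card (tors K W) ≠ 0 := fun h => htK (by rw [h]; exact dvd_zero _)
    exact_mod_cast this
  have htQ0 : (Nat.card (tors K W) : ℚ) ≠ 0 := by exact_mod_cast ht0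
  have hy0 : y ≠ 0 := by
    rintro rfl
    exact hnum (by simp)
  have hvt : padicValRat l (Nat.card (tors K W) : ℚ) = 0 := by
    rw [padicValRat.of_nat, padicValNat.eq_zero_of_not_dvd htK]
    rfl
  have hvy : padicValRat l y = 0 := by
    have h1 : padicValRat l y = padicValInt l y.num - padicValNat l y.den := rfl
    rw [h1, padicValNat.eq_zero_of_not_dvd hyd, padicValInt.eq_zero_of_not_dvd hnum]
    rfl
  have hTam0 : (Tam K W : ℚ) ≠ 0 := by
    have : Tam K W ≠ 0 := fun h => htam (by rw [h]; exact dvd_zero _)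
    exact_mod_cast this
  refine ⟨hrk, by rw [hsha]; exact Set.finite_singleton _, L, hL1, hL2, ?_,
    y / (Nat.card (tors K W) : ℚ) ^ 2, ?_, div_ne_zero hy0 (pow_ne_zero _ htQ0), ?_⟩
  · refine analyticOrderAt_eq_zero.2 (Or.inr fun h => ?_)
    rw [h, zero_mul, zero_mul] at hL3
    rcases mul_eq_zero.1 hL3.symm with h1 | h1
    · exact hy0 (by exact_mod_cast h1)
    · exact hOK0 (by exact_mod_cast h1)
  · push_cast
    rw [div_mul_eq_mul_div, ← hL3]
    field_simp
  · have hc1 : Nat.card (({0} : Set (Sha (base W K))) : Set (Sha (base W K))) = 1 := Nat.card_unique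
    rw [hsha, hc1, Nat.cast_one, one_mul, padicValRat.div hy0 (pow_ne_zero _ htQ0),
      padicValRat.div hTam0 (pow_ne_zero _ htQ0), padicValRat.pow, hvt, hvy, padicValRat.of_nat,
      padicValNat.eq_zero_of_not_dvd htam]
    rfl

end Pool.Agent.Results.MP_f50388_nt.FormulaModOddPrimes
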