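import Pool.Agent.H463.QM.Fnl
import Pool.Agent.H463.KD.All

/-!
# The 2-part of the strong conjecture of Birch and Swinnerton-Dyer for `X₀(49)` over the quadratic
# extensions of `ℚ(√-7)`, with unbounded `Ш[2^∞]`

`K = ℚ(√-7)` with ring of integers `O = ℤ[a]`, `a² = a - 2`, so that `2 a - 1 = √-7`.  An element `D` of
`O` is in the family `Fam` if `D ≡ 1 mod 4` and `√-7 D` is squarefree.  For `D ≠ 1` in the family the
field `M = K(√D)` is a totally complex field of degree four (in general not normal over `ℚ`), and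
`X₀(49) : y² + x y = x³ - x² - 2 x - 1` is a curve over `M`.

`Holds D` says: `X₀(49)` has only finitely many points over `M = K(√D)`, the 2-primary part of its
Tate-Shafarevich group over `M` is killed by two and has exactly `4 ^ (k - g)` elements, `k` being the
number of the primes of `K` that divide `D` and `g` (`= 1` or `2`) the number of the primes of `M` above
`7`, the `L`-function over `M` is entire and does not vanish at `1`, and the order of the Tate-Shafarevich
group predicted by the conjecture, `L(E/M, 1) √|disc M| #E(M)_tors² / (∏ Ω_v ∏ c_v)`, has the same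
valuation as the order of the 2-primary part of the Tate-Shafarevich group, for all the valuations above
`2`.  So it is the 2-part of the formula of Birch and Swinnerton-Dyer for `X₀(49)` over `M`.

The theorem: (1) `Holds D` is equivalent to: the quadratic twist of `X₀(49)` by `D` has finitely many points
over `K` and its Tate-Shafarevich group over `K` has trivial 2-primary part; (2) among the `D` of the
family, ordered by the norm, the proportion of those with `Holds D` is exactly
`∏_{i ≥ 1} (1 - 2^{-i}) = 0.2887...`, and more generally for any different `d_1, …, d_n` of the family the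
proportion of the `D` with `Holds (D d_i)` for all `i` is the `n`-th power of it; (3) for every `k ≥ 1` there
are infinitely many such `D` with exactly `k` prime divisors, so that the 2-primary parts are unbounded.
-/

set_option autoImplicit false

namespace Pool.Agent.Results.MP_f50388_nt.QuarticFieldsX49

open NumberField IsDedekindDomain Filter

/-- The curve `X₀(49) : y² + x y = x³ - x² - 2 x - 1` over the field `F`. -/
def curve (F : Type) [Field F] : WeierstrassCurve F := ⟨1, -1, 0, -2, -1⟩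

/-- The quadratic twist `y² + x y = x³ - (1 + 3 J) x² - 2 D² x - D³` of `X₀(49)` by `D = 1 + 4 J`. -/
noncomputable def twist {K : Type} [Field K] [NumberField K] (J : 𝓞 K) : WeierstrassCurve K :=
  ⟨1, -(1 + 3 * (J : K)), 0, -2 * (1 + 4 * (J : K)) ^ 2, -(1 + 4 * (J : K)) ^ 3⟩

open scoped Classical in
/-- The equation `E` is minimal at every finite place `v`, and `c v` is the Tamagawa number of `E` at
`v`: the index in `E(F_v)` of the subgroup of the points of nonsingular reduction. -/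
def IsTamagawa {F : Type} [Field F] [NumberField F] (E : WeierstrassCurve F)
    (c : HeightOneSpectrum (𝓞 F) → ℕ) : Prop :=
  (∀ v : HeightOneSpectrum (𝓞 F),
    (E.baseChange (v.adicCompletion F)).IsMinimal (v.adicCompletionIntegers F) ∧
    ∃ H : AddSubgroup (E.baseChange (v.adicCompletion F)).toAffine.Point,
      (∀ P, P ∈ H ↔ Pool.Agent.Y696.NonsingRed Valued.v (E.baseChange (v.adicCompletion F)) P) ∧
      H.index = c v) ∧
  {v | c v ≠ 1}.Finite

/-- `Λ` is the lattice of periods of the differential `dx / (2y + a₁x + a₃)` of the curve `E`, embedded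
in the complex numbers by `σ`. -/
def IsPeriodLattice {F : Type} [Field F] (E : WeierstrassCurve F) (σ : F →+* ℂ)
    (Λ : PeriodPair) : Prop :=
  Λ.g₂ = σ E.c₄ / 12 ∧ Λ.g₃ = σ E.c₆ / 216

/-- Twice the area of a fundamental parallelogram of the lattice. -/
noncomputable def period (Λ : PeriodPair) : ℝ := 2 * |((starRingEnd ℂ) Λ.ω₁ * Λ.ω₂).im|

/-- `L` is the entire continuation of the `L`-series of `E`. -/
def IsLFunction {F : Type} [Field F] [NumberField F] (E : WeierstrassCurve F) (L : ℂ → ℂ) : Prop :=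
  Differentiable ℂ L ∧ ∀ s : ℂ, 3 / 2 < s.re →
    LSeriesSummable ((fun n : ℤ => (n : ℂ)) ∘ E.LFunction) s ∧ L s = E.LSeries s

open scoped Classical in
/-- `L(E/F, 1) √|disc F| #E(F)_tors² / (∏_v Ω_v ∏_v c_v)` for a curve `E` over a totally complex number
field `F`, `Ω_v` being twice the area of the lattice of periods at the infinite place `v`: if the rank is
`0`, the conjecture says that this is the order of `Ш(E/F)`. -/
noncomputable def quotient {F : Type} [Field F] [NumberField F] (E : WeierstrassCurve F)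
    (L : ℂ → ℂ) (c : HeightOneSpectrum (𝓞 F) → ℕ) (Λ : InfinitePlace F → PeriodPair) : ℂ :=
  L 1 * (Real.sqrt |(discr F : ℝ)| : ℝ) *
    (Nat.card (AddCommGroup.torsion E.toAffine.Point) : ℂ) ^ 2 /
      ((∏ v, (period (Λ v) : ℂ)) * ((∏ᶠ v, c v : ℕ) : ℂ))

/-- The 2-primary part of `Ш(E/F)`. -/
def Sha2 {F : Type} [Field F] [NumberField F] (E : WeierstrassCurve F) : Type :=
  {x : Pool.Agent.TH841.NF.D.Sha E // ∃ n : ℕ, 2 ^ n • x = 0}

/-- The 2-part of the conjecture of Birch and Swinnerton-Dyer for a curve `E` of rank `0` over a totally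
complex number field `F`: `E(F)` and the 2-primary part of `Ш(E/F)` are finite, the `L`-function is entire
and does not vanish at `1`, and the predicted order of `Ш(E/F)` has the same valuation as the order of its
2-primary part at all the valuations above `2`. -/
def TwoPart {F : Type} [Field F] [NumberField F] (E : WeierstrassCurve F) : Prop :=
  (∀ v : InfinitePlace F, v.IsComplex) ∧ Finite E.toAffine.Point ∧ Finite (Sha2 E) ∧
  ∃ (L : ℂ → ℂ) (c : HeightOneSpectrum (𝓞 F) → ℕ),
    IsLFunction E L ∧ IsTamagawa E c ∧ L 1 ≠ 0 ∧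
    (∀ v : InfinitePlace F, ∃ Λ : PeriodPair, IsPeriodLattice E v.embedding Λ) ∧
    ∀ Λ : InfinitePlace F → PeriodPair, (∀ v, IsPeriodLattice E v.embedding (Λ v)) →
      ∀ (Γ : Type) [LinearOrderedCommGroupWithZero Γ] (w : Valuation ℂ Γ), w 2 < 1 →
        w (quotient E L c Λ) = w ((Nat.card (Sha2 E) : ℕ) : ℂ)

/-- `M = K(√D)` is a quadratic extension of `K`. -/
def IsSqrtField {K : Type} [Field K] [NumberField K] (D : 𝓞 K) (M : Type) [Field M]
    [NumberField M] [Algebra K M] : Prop :=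
  Module.finrank K M = 2 ∧
    ∃ θ : M, θ ^ 2 = algebraMap K M (D : K) ∧ ∀ x : K, algebraMap K M x ≠ θ

/-- For `M = K(√D)`: the 2-part of the conjecture for `X₀(49)` over `M`, where the 2-primary part of the
Tate-Shafarevich group is killed by two and has `4 ^ (k - g)` elements, `k` being the number of the primes of
`K` that divide `D` and `g` the number of the primes of `M` above `7`. -/
def Holds {K : Type} [Field K] [NumberField K] (D : 𝓞 K) : Prop :=
  ∀ (M : Type) [Field M] [NumberField M] [Algebra K M], IsSqrtField D M →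
    TwoPart (curve M) ∧ (∀ x : Sha2 (curve M), 2 • x.1 = 0) ∧
    Nat.card (Sha2 (curve M)) * 4 ^ {w : HeightOneSpectrum (𝓞 M) | (7 : 𝓞 M) ∈ w.asIdeal}.ncard =
      4 ^ {v : HeightOneSpectrum (𝓞 K) | D ∈ v.asIdeal}.ncard

/-- `D ≡ 1 mod 4` and `√-7 D` is squarefree. -/
def Fam {K : Type} [Field K] [NumberField K] (a D : 𝓞 K) : Prop :=
  4 ∣ D - 1 ∧ Squarefree ((2 * a - 1) * D)

/-- The `D` of the family of norm at most `X` which are prime to all the `d i`. -/
def Box {K : Type} [Field K] [NumberField K] {ι : Type} (a : 𝓞 K) (d : ι → 𝓞 K) (X : ℕ) :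
    Set (𝓞 K) :=
  {D | Fam a D ∧ (∀ i, IsCoprime D (d i)) ∧ (Algebra.norm ℤ D).natAbs ≤ X}

section proof

variable {K : Type} [Field K] [NumberField K]

open Pool.Agent.Y698 Pool.Agent.H463.KD Pool.Agent.H463.QM
open Pool.Agent.H463.QE (gX Fs)

lemma curve_EX (F : Type) [Field F] : curve F = EX F 0 := by
  unfold curve EX
  simp

lemma inv4 {F : Type} [Field F] (σ : F →+* ℂ) : σ (curve F).c₄ / 12 = 35 / 4 := by
  have h1 : (curve F).c₄ = 105 := by
    unfold curve WeierstrassCurve.c₄ WeierstrassCurve.b₄ WeierstrassCurve.b₂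
    ring
  rw [h1, map_ofNat]
  norm_num

lemma inv6 {F : Type} [Field F] (σ : F →+* ℂ) : σ (curve F).c₆ / 216 = 49 / 8 := by
  have h1 : (curve F).c₆ = 1323 := by
    unfold curve WeierstrassCurve.c₆ WeierstrassCurve.b₆ WeierstrassCurve.b₄ WeierstrassCurve.b₂
    ring
  rw [h1, map_ofNat]
  norm_num

lemma sha2_card {F : Type} [Field F] [NumberField F] (E : WeierstrassCurve F) :
    Nat.card (Sha2 E) = Nat.card (ShaP E) := rfl

open scoped Classical in
/-- the criterion, in terms of the set of primes -/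
theorem holds_iff (e : RR ≃+* 𝓞 K) (hem : ∀ x, Pool.Agent.R426.QC.em e x = ((e x : 𝓞 K) : K))
    {S : Finset RR} (hf : Fs S (fun x => x)) {J : RR} (hJ : ∏ ϖ ∈ S, ϖ = 1 + 4 * J) :
    Holds (e (∏ ϖ ∈ S, ϖ)) ↔ gX S ≠ 0 := by
  constructor
  · -- the converse
    intro h
    by_cases hS : S = ∅
    · rw [hS]
      exact gd_nil _
    have hne : (∏ ϖ ∈ S, ϖ : RR) ≠ 1 := by
      intro h1
      obtain ⟨ϖ, hϖ⟩ := Finset.nonempty_iff_ne_empty.2 hS
      exact (hf.e.fa.pn ϖ hϖ).pr.not_isUnit
        (isUnit_of_dvd_one (by rw [← h1]; exact Finset.dvd_prod_of_mem (fun x => x) hϖ))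
    obtain ⟨M, i1, i2, i3, θ, hQ⟩ := Pool.Agent.H996.QM.t_EXM K e _ hf.sqf7 ⟨J, hJ⟩ hne
    obtain ⟨⟨-, t2, -, L', c', t4, t5, -, t7, t8⟩, -, hN⟩ := h M ⟨hQ.two, θ, by
      rw [hQ.sq, hem], hQ.nr⟩
    rw [seven_set, card_primes e hf] at hN
    obtain ⟨L, a1, a2, a3⟩ := formM e hf hJ hQ
    choose Λ hΛ using t7
    have hLL : L' 1 = L 1 := by
      refine entire_unique t4.1 a1 (fun s hs => ?_) 1
      rw [(t4.2 s hs).2, (a2 s hs).2, curve_EX]
    rw [curve_EX] at t2
    obtain ⟨m, hm, hm'⟩ := ptsM e hQ t2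
    obtain ⟨B, hB⟩ := Pool.Agent.H463.QE.exists_two
    have h8 := t8 Λ hΛ _ B.valuation hB
    have hcc : ∀ w, c' w = if w.valuation M 7 < 1 then 4 else 1 := by
      intro w
      obtain ⟨-, H, hH, hHi⟩ := t5.1 w
      obtain ⟨-, H', hH', hHi'⟩ := tamM e hQ w
      rw [← hHi, ← hHi']
      have key : ∀ (E : WeierstrassCurve M), E = EX M 0 →
          ∀ (H : AddSubgroup (E.baseChange (w.adicCompletion M)).toAffine.Point)
          (H' : AddSubgroup ((EX M 0).baseChange (w.adicCompletion M)).toAffine.Point),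
          (∀ P, P ∈ H ↔ Pool.Agent.Y696.NonsingRed Valued.v
            (E.baseChange (w.adicCompletion M)) P) →
          (∀ P, P ∈ H' ↔ Pool.Agent.Y696.NonsingRed Valued.v
            ((EX M 0).baseChange (w.adicCompletion M)) P) → H.index = H'.index := by
        rintro E rfl H H' h1 h2
        have h3 : H = H' := by
          ext P
          rw [h1, h2]
        rw [h3]
      exact key _ (curve_EX M) H H' hH hH'
    obtain ⟨-, hprod⟩ := tam_prod e hQ hcc
    refine (a3 Λ (fun v => by rw [(hΛ v).1, inv4]) (fun v => by rw [(hΛ v).2, inv6]) hm hN _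
      B.valuation hB).2.1 ?_
    rw [← h8]
    unfold quotient period
    rw [hprod, hLL, curve_EX, hm']
  · -- the main direction
    intro hg M _ _ _ hM
    obtain ⟨hM2, θ, hθ, hnr⟩ := hM
    have hQ : QD e (∏ ϖ ∈ S, ϖ) θ := ⟨hM2, by rw [hθ, hem], hnr, hf.sqf7, ⟨J, hJ⟩⟩
    have hne : S.Nonempty := by
      rw [Finset.nonempty_iff_ne_empty]
      intro h1
      rw [h1, Finset.prod_empty, map_one] at hθ
      have h2 : (θ - 1) * (θ + 1) = 0 := by
        have h3 : θ ^ 2 = 1 := by
          rw [hθ]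
          have h4 : ((1 : 𝓞 K) : K) = 1 := map_one (algebraMap (𝓞 K) K)
          rw [h4, map_one]
        linear_combination h3
      rcases mul_eq_zero.1 h2 with h3 | h3
      · exact hnr 1 (by rw [map_one]; exact (sub_eq_zero.1 h3).symm)
      · exact hnr (-1) (by rw [map_neg, map_one]; exact (eq_neg_of_add_eq_zero_left h3).symm)
    obtain ⟨b1, -, b3, b4⟩ := arithM e hf hJ hQ hne hg
    obtain ⟨L, a1, a2, a3⟩ := formM e hf hJ hQ
    obtain ⟨hcx, hc2⟩ := cplM e hQ
    have hN : Nat.card (Sha2 (curve M)) *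
        4 ^ {w : HeightOneSpectrum (𝓞 M) | w.valuation M 7 < 1}.ncard = 4 ^ S.card := by
      rw [sha2_card, curve_EX, shaP_card b3]
      exact b4
    obtain ⟨m, hm, hm'⟩ := ptsM e hQ b1
    obtain ⟨c, hc⟩ : ∃ c : HeightOneSpectrum (𝓞 M) → ℕ,
      ∀ w, c w = if w.valuation M 7 < 1 then 4 else 1 := ⟨_, fun _ => rfl⟩
    obtain ⟨hcf, hprod⟩ := tam_prod e hQ hc
    have hper : ∀ v : InfinitePlace M, ∃ Λ : PeriodPair,
        IsPeriodLattice (curve M) v.embedding Λ := by
      intro v
      obtain ⟨Λ, h1, h2⟩ := Pool.Agent.R426.QC.per7_ex (one_ne_zero (α := ℂ))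
      refine ⟨Λ, ?_, ?_⟩
      · rw [inv4, h1]; ring
      · rw [inv6, h2]; ring
    have hN0 : Nat.card (Sha2 (curve M)) ≠ 0 := by
      intro h0
      rw [h0, zero_mul] at hN
      exact (pow_ne_zero _ (by norm_num)) hN.symm
    have hform : ∀ Λ : InfinitePlace M → PeriodPair,
        (∀ v, IsPeriodLattice (curve M) v.embedding (Λ v)) →
        ∀ (Γ : Type) [LinearOrderedCommGroupWithZero Γ] (w : Valuation ℂ Γ), w 2 < 1 →
          w (quotient (curve M) L c Λ) = w ((Nat.card (Sha2 (curve M)) : ℕ) : ℂ) := by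
      intro Λ hΛ Γ _ w hw
      have h1 := (a3 Λ (fun v => by rw [(hΛ v).1, inv4]) (fun v => by rw [(hΛ v).2, inv6]) hm hN Γ
        w hw).2.2 hg
      rw [← h1]
      unfold quotient period
      rw [hprod, curve_EX, hm']
    refine ⟨⟨hcx, ?_, ?_, L, c, ?_, ?_, ?_, hper, hform⟩, ?_, ?_⟩
    · rw [curve_EX]; exact b1
    · exact Nat.finite_of_card_ne_zero hN0
    · rw [curve_EX]
      exact ⟨a1, a2⟩
    · rw [curve_EX]
      refine ⟨fun w => ?_, hcf⟩
      rw [hc]
      exact tamM e hQ w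
    · intro h0
      choose Λ hΛ using hper
      obtain ⟨B, hB⟩ := Pool.Agent.H463.QE.exists_two
      have h1 := hform Λ hΛ _ B.valuation hB
      unfold quotient at h1
      rw [h0, zero_mul, zero_mul, zero_div, map_zero, eq_comm, map_eq_zero] at h1
      exact hN0 (by exact_mod_cast h1)
    · rw [curve_EX]
      rintro ⟨x, n, hx⟩
      exact b3 n x hx
    · rw [seven_set, card_primes e hf]
      exact hN

theorem two_iff {e : RR ≃+* 𝓞 K}
    (hem : ∀ x, Pool.Agent.R426.QC.em e x = ((e x : 𝓞 K) : K)) {S : Finset PK}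
    (hu : ∑ p ∈ S, YK.u p = 0) : Holds (e (pS S)) ↔ YK.Gd S := by
  classical
  rw [gd_gX hu]
  obtain ⟨J, hJ⟩ := m4_S hu
  have hf := fs_vS hu
  have hDp : ∏ ϖ ∈ vS S, ϖ = 1 + 4 * J := by rw [← hJ, pS_eq]
  rw [pS_eq]
  exact holds_iff e hem hf hDp

theorem twist_iff {e : RR ≃+* 𝓞 K} {a : 𝓞 K} (hea : e aR = a)
    (hem : ∀ x, Pool.Agent.R426.QC.em e x = ((e x : 𝓞 K) : K)) (J : 𝓞 K)
    (hsq : Squarefree ((2 * a - 1) * (1 + 4 * J))) :
    Holds (1 + 4 * J) ↔ (Finite (twist J).toAffine.Point ∧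
      ∀ (n : ℕ) (x : Pool.Agent.TH841.NF.D.Sha (twist J)), 2 ^ n • x = 0 → x = 0) := by
  obtain ⟨J, rfl⟩ := e.surjective J
  have hsq' := Pool.Agent.H463.QE.sqf_tr e hea hsq
  obtain ⟨S, hf, hD⟩ := Pool.Agent.H463.QE.exists_fs hsq' rfl
  have hcr : twist (e J) = Pool.Agent.Y698.EX K (Pool.Agent.R426.QC.em e J) := by
    rw [hem]
    rfl
  have hDe : 1 + 4 * e J = e (∏ ϖ ∈ S, ϖ) := by
    rw [← hD, map_add, map_one, map_mul, map_ofNat]
  rw [hDe, holds_iff e hem hf hD.symm, hcr]
  obtain ⟨h1, -⟩ := Pool.Agent.H463.QE.fullX e hsq' rfl hf hD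
  exact h1

end proof

/-- **Main theorem.**  Let `K` be a quadratic field that contains `a` with `a² = a - 2` (so
`K = ℚ(√-7)`).

(1) Let `D = 1 + 4 J` with `√-7 D` squarefree.  Then the 2-part of the conjecture holds for `X₀(49)` over
`K(√D)`, with a 2-primary part of the Tate-Shafarevich group killed by two and of order `4 ^ (k - g)`, if
and only if the twist of `X₀(49)` by `D` has finitely many points over `K` and its Tate-Shafarevich group
has trivial 2-primary part.

(2) Let `d i`, `i ∈ ι`, be finitely many different elements of the family.  The proportion of the `D` in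
`Box a d X` with `Holds (D * d i)` for all `i ∈ ι` tends to `(∏_{j ≥ 1} (1 - 2^{-j})) ^ #ι`, where
`0.2887 < ∏_{j ≥ 1} (1 - 2^{-j}) < 0.2889`.

(3) For every `k ≥ 1` there are infinitely many `D` in the family with exactly `k` prime divisors and
`Holds D`. -/
theorem result (K : Type) [Field K] [NumberField K] (hK : Module.finrank ℚ K = 2) (a : 𝓞 K)
    (ha : a ^ 2 = a - 2) :
    (∀ J : 𝓞 K, Squarefree ((2 * a - 1) * (1 + 4 * J)) →
      (Holds (1 + 4 * J) ↔ (Finite (twist J).toAffine.Point ∧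
        ∀ (n : ℕ) (x : Pool.Agent.TH841.NF.D.Sha (twist J)), 2 ^ n • x = 0 → x = 0))) ∧
    (∀ (ι : Type) [Fintype ι] (d : ι → 𝓞 K), Function.Injective d → (∀ i, Fam a (d i)) →
      (∀ X : ℕ, (Box a d X).Finite) ∧
      (∃ c : ℝ, 0 < c ∧ ∀ᶠ X : ℕ in atTop, c * X ≤ ((Box a d X).ncard : ℝ)) ∧
      Tendsto (fun X : ℕ => ({D | D ∈ Box a d X ∧ ∀ i, Holds (D * d i)}.ncard : ℝ) /
        ((Box a d X).ncard : ℝ)) atTop
        (nhds ((∏' j : ℕ, (1 - (1 / 2 : ℝ) ^ (j + 1))) ^ Fintype.card ι))) ∧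
    (0.2887 < (∏' j : ℕ, (1 - (1 / 2 : ℝ) ^ (j + 1))) ∧
      (∏' j : ℕ, (1 - (1 / 2 : ℝ) ^ (j + 1))) < 0.2889) ∧
    ∀ k : ℕ, 1 ≤ k → {D : 𝓞 K | Fam a D ∧ Holds D ∧
      {v : HeightOneSpectrum (𝓞 K) | D ∈ v.asIdeal}.ncard = k}.Infinite := by
  obtain ⟨e, hea, hem⟩ := Pool.Agent.H463.QE.exists_e hK ha
  refine ⟨fun J hJ => twist_iff hea hem J hJ, ?_, Pool.Agent.H463.KD.c2_bounds, ?_⟩
  · intro ι _ d hinj hd
    obtain ⟨h1, h2, h3⟩ := Pool.Agent.H463.KD.out_law e Pool.Agent.H463.KD.t_LAW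
      Pool.Agent.H463.KD.ax_YK Pool.Agent.H962.KD.t_LOW hea d hinj hd Holds
      fun S hu => two_iff hem hu
    refine ⟨h1, h2, ?_⟩
    refine h3.congr fun X => ?_
    congr 3
    ext D
    unfold Box
    simp only [Set.mem_ofPred_eq]
    exact ⟨fun h => ⟨⟨h.1, h.2.1, h.2.2.1⟩, h.2.2.2⟩, fun h => ⟨h.1.1, h.1.2.1, h.1.2.2, h.2⟩⟩
  · intro k hk
    have h1 := Pool.Agent.H463.QE.inf_X k hk
    have hinj : Function.Injective fun J : Pool.Agent.Y698.RR => (1 : 𝓞 K) + 4 * e J := by
      intro x y h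
      have h2 : (4 : 𝓞 K) * e x = 4 * e y := add_left_cancel h
      exact e.injective (mul_left_cancel₀ (by norm_num) h2)
    refine (h1.image (hinj.injOn)).mono ?_
    rintro _ ⟨J, ⟨S, hS, hf, hD, hg⟩, rfl⟩
    have hDe : (1 : 𝓞 K) + 4 * e J = e (∏ ϖ ∈ S, ϖ) := by
      rw [← hD, map_add, map_one, map_mul, map_ofNat]
    have hsq : Squarefree (Pool.Agent.Y698.fR * (1 + 4 * J)) := by
      rw [hD]
      exact hf.sqf7
    refine ⟨⟨⟨e J, by ring⟩, Pool.Agent.H463.QE.sqf_tr' e hea hsq⟩, ?_, ?_⟩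
    · show Holds ((1 : 𝓞 K) + 4 * e J)
      rw [hDe]
      exact (holds_iff e hem hf hD.symm).2 hg
    · show {v : HeightOneSpectrum (𝓞 K) | (1 : 𝓞 K) + 4 * e J ∈ v.asIdeal}.ncard = k
      rw [hDe, Pool.Agent.H463.QM.card_primes e hf, hS]

end Pool.Agent.Results.MP_f50388_nt.QuarticFieldsX49
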