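import Pool.Agent.H465.PT.CC

/-!
# Universal inequalities for the zeros, the rank and the leading coefficient of `L(E/K, s)`

Let `E` be an elliptic curve over a number field `K` of degree `n`, whose L-function satisfies the
conjecture of Hasse-Weil (continuation and functional equation; a theorem for instance for the
elliptic curves over `ℚ` considered over a solvable extension `K` of `ℚ`), and let
`A = |Disc K|² Norm(N_{E/K})` be its conductor, `r` the order of vanishing at `s = 1` and `L^*` the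
leading coefficient there.  No Riemann hypothesis is assumed.  For every `ε > 0`, with a constant
`C = C(ε)` which depends neither on `E` nor on `K` (nor on its degree):

* for all real `t` of bounded size the zeros `ρ` in the critical strip satisfy
  `∑ cos(π (Re ρ - 1)) / cosh(π (t - Im ρ)) ≤ (1/(2π) + ε) log A + C n`.
  The kernel is `1 / cosh(π (t - Im ρ))` on the line `Re s = 1`, its integral over the line is `1`,
  and `log A / (2π)` is the mean density of the zeros at bounded heights; so the constant `1/(2π)`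
  is optimal: under the Lindelöf hypothesis, and unconditionally for the fields `K = ℚ(ζ_n)`, the
  zeros are equidistributed on the line with this density, and one has equality up to `o(log A)`
  (see `MP_fb225e_nt.ZerosOfBoundedHeight`);
* in particular `r ≤ (1/(2π) + ε) log A + C n` (the usual argument, the positivity of
  `Re Σ 1/(s - ρ)`, gives `1/4` instead of `1/(2π) = 0.159...`);
* `log |L^*| + ∑_{ρ ≠ 1} (1/2) log ((cosh π γ + cos π (β - 1)) / (cosh π γ - cos π (β - 1)))
    ≤ (1/4 + ε) log A + r log(π/2) + C n`, `ρ = β + iγ`: the convexity bound for the leading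
  coefficient, with the contribution of all the zeros (for `β = 1` it is `log coth(π |γ| / 2)`) and a
  sharp dependence on `r`;
* so `|L^*| ≤ A ^ (1/4 + log(π/2)/(2π) + ε) e ^ (C n)`;
* if `E` is fixed, `A ≤ e ^ (κ n) D²` with `D = |Disc K|`, one gets
  `r ≤ (1/π + ε) log D + C n`, and for the number `S = #Ш R` predicted by the formula of Birch and
  Swinnerton-Dyer (Q1): `S ≤ D ^ (1 + log(π/2)/π + ε) e ^ (C n)`.

The known bounds for `r` and `#Ш` in terms of the discriminant of `K` assume the Riemann hypothesis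
for `L(E/K, s)` and concern a fixed degree.

Proof.  Let `Λ` be the completed function.  In the strip `1/2 - B ≤ Re s ≤ 3/2 + B` divide `Λ` by the
Blaschke product of the strip over the zeros; it is bounded by the maximum of `|Λ|` on the edges.
Comparing with the size of `Λ` at two symmetric points near the edges gives the first inequality, and
the value at the centre gives the second; let `B → 0`.
-/

set_option autoImplicit false

open Complex NumberField IsDedekindDomain

namespace Pool.Agent.Results.MP_f50388_nt.UniversalBounds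

section field
variable {K : Type} [Field K] [NumberField K]

/-- the number of affine points of `y² = x³ + a x + b` over the residue field of `v` -/
noncomputable def points (a b : 𝓞 K) (v : HeightOneSpectrum (𝓞 K)) : ℕ :=
  Nat.card {P : (𝓞 K ⧸ v.asIdeal) × (𝓞 K ⧸ v.asIdeal) //
    P.2 ^ 2 = P.1 ^ 3 + Ideal.Quotient.mk v.asIdeal a * P.1 + Ideal.Quotient.mk v.asIdeal b}

/-- the Euler factor `(1 - c q^(-s) + e q^(-2 s))⁻¹` -/
noncomputable def eulerFactor (c e : ℤ) (q : ℕ) (s : ℂ) : ℂ :=
  (1 - (c : ℂ) * (q : ℂ) ^ (-s) + (e : ℂ) * (q : ℂ) ^ (-(2 * s)))⁻¹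

/-- the possible Euler factors of an elliptic curve at a place with `q` residue classes:
good reduction (`e = q`, `c² ≤ 4 q`) or bad reduction (`e = 0`, `c = 0, 1, -1`) -/
def Possible (c e : ℤ) (q : ℕ) : Prop := (e = q ∧ c ^ 2 ≤ 4 * (q : ℤ)) ∨ (e = 0 ∧ c ^ 2 ≤ 1)

/-- `1 - c_v T + e_v T²` are the local polynomials of `y² = x³ + a x + b`: given by the number of
points, `c_v = Nv - #(affine points)` and `e_v = Nv`, if `v` does not divide `2 (4 a³ + 27 b²)`, and
possible for an elliptic curve at the finitely many other places -/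
structure IsLocal (a b : 𝓞 K) (c e : HeightOneSpectrum (𝓞 K) → ℤ) : Prop where
  good : ∀ v : HeightOneSpectrum (𝓞 K), 2 * (4 * a ^ 3 + 27 * b ^ 2) ∉ v.asIdeal →
    c v = (Ideal.absNorm v.asIdeal : ℤ) - points a b v ∧ e v = Ideal.absNorm v.asIdeal
  bad : ∀ v : HeightOneSpectrum (𝓞 K), 2 * (4 * a ^ 3 + 27 * b ^ 2) ∈ v.asIdeal →
    Possible (c v) (e v) (Ideal.absNorm v.asIdeal)

end field

/-- the completed function `A^(s/2) ((2π)^(-s) Γ(s))^n L(s)` -/
noncomputable def completed (n : ℕ) (A : ℝ) (L : ℂ → ℂ) (s : ℂ) : ℂ :=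
  (A : ℂ) ^ (s / 2) * ((2 * Real.pi : ℂ) ^ (-s) * Complex.Gamma s) ^ n * L s

/-- `L` is the L-function of the elliptic curve `y² = x³ + a x + b` over `K`: it is given by the
Euler product for `Re s > 3/2`, it is entire, and it has the functional equation with the conductor
`A` (stated in the critical strip `0 < Re s < 2` of the completed function).  The bound `growth` in
the strip is very weak, in all known cases `L` is of finite order. -/
structure HasseWeil (K : Type) [Field K] [NumberField K] (a b : 𝓞 K) (A : ℝ) (L : ℂ → ℂ) :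
    Prop where
  nonsingular : 4 * a ^ 3 + 27 * b ^ 2 ≠ 0
  euler : ∃ c e : HeightOneSpectrum (𝓞 K) → ℤ, IsLocal a b c e ∧ ∀ s : ℂ, 3 / 2 < s.re →
    HasProd (fun v : HeightOneSpectrum (𝓞 K) =>
      eulerFactor (c v) (e v) (Ideal.absNorm v.asIdeal) s) (L s)
  entire : Differentiable ℂ L
  growth : ∃ B : ℝ, ∀ s : ℂ, 0 < s.re → s.re < 2 → ‖L s‖ ≤ Real.exp (B * Real.exp |s.im|)
  pos : 0 < A
  fe : ∃ w : ℂ, ‖w‖ = 1 ∧ ∀ s : ℂ, 0 < s.re → s.re < 2 →
    completed (Module.finrank ℚ K) A L s = w * completed (Module.finrank ℚ K) A L (2 - s)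

/-- the degree of `K` -/
noncomputable def deg (K : Type) [Field K] [NumberField K] : ℕ := Module.finrank ℚ K

/-- the absolute value of the discriminant of `K` -/
noncomputable def absDisc (K : Type) [Field K] [NumberField K] : ℝ := |(discr K : ℝ)|

/-- the order of vanishing at `ρ` -/
noncomputable def ord (L : ℂ → ℂ) (ρ : ℂ) : ℝ := (analyticOrderNatAt L ρ : ℝ)

/-- the leading coefficient at `s = 1`: the limit of `(s - 1)^(-r) L(s)`, `r = ord L 1` -/
noncomputable def lead (L : ℂ → ℂ) : ℂ := meromorphicTrailingCoeffAt L 1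

/-- `Z` is a finite set of points of the critical strip `1/2 ≤ Re s ≤ 3/2` -/
def InStrip (Z : Finset ℂ) : Prop := ∀ ρ ∈ Z, 1 / 2 ≤ ρ.re ∧ ρ.re ≤ 3 / 2

/-- the first kernel, `cos(π (β - 1)) / cosh(π (t - γ))` for `ρ = β + iγ` -/
noncomputable def kernel (t : ℝ) (ρ : ℂ) : ℝ :=
  Real.cos (Real.pi * (ρ.re - 1)) / Real.cosh (Real.pi * (t - ρ.im))

/-- the second kernel, `(1/2) log ((cosh πγ + cos π(β - 1)) / (cosh πγ - cos π(β - 1)))` for
`ρ = β + iγ` -/
noncomputable def kernel' (ρ : ℂ) : ℝ :=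
  Real.log ((Real.cosh (Real.pi * ρ.im) + Real.cos (Real.pi * (ρ.re - 1))) /
    (Real.cosh (Real.pi * ρ.im) - Real.cos (Real.pi * (ρ.re - 1)))) / 2

/-- The inequalities for one elliptic curve with the constants `ε`, `C`, and `T`, `κ`.
(1) The zeros and the density.  (2) The leading coefficient and the zeros.  (3) The order of
vanishing at `s = 1`.  (4) The leading coefficient.  (5) The consequences in terms of the
discriminant of `K` if `A ≤ e^(κ n) |Disc K|²` (as for a fixed `E`): the order of vanishing, and the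
number `S = #Ш R` predicted by the formula `|L^*| = S G / |Disc K|^(1/2)` of Birch and
Swinnerton-Dyer, where `G = Ω_{E/K} C_{E/K} / (#E(K)_tors)²` is at least `e^(-κ n)`. -/
structure Bounds (ε C T κ : ℝ) (K : Type) [Field K] [NumberField K] (A : ℝ) (L : ℂ → ℂ) : Prop where
  zeros : ∀ Z : Finset ℂ, InStrip Z → ∀ t : ℝ, |t| ≤ T →
    ∑ ρ ∈ Z, ord L ρ * kernel t ρ ≤ (1 / (2 * Real.pi) + ε) * Real.log A + C * deg K
  leading : ∀ Z : Finset ℂ, InStrip Z → 1 ∉ Z →
    Real.log ‖lead L‖ + ∑ ρ ∈ Z, ord L ρ * kernel' ρ ≤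
      (1 / 4 + ε) * Real.log A + ord L 1 * Real.log (Real.pi / 2) + C * deg K
  order : ord L 1 ≤ (1 / (2 * Real.pi) + ε) * Real.log A + C * deg K
  size : lead L ≠ 0 ∧ ‖lead L‖ ≤
    A ^ (1 / 4 + Real.log (Real.pi / 2) / (2 * Real.pi) + ε) * Real.exp (C * deg K)
  disc : A ≤ Real.exp (κ * deg K) * absDisc K ^ 2 →
    ord L 1 ≤ (1 / Real.pi + ε) * Real.log (absDisc K) + C * deg K ∧
    ∀ S G : ℝ, Real.exp (-(κ * deg K)) ≤ G → ‖lead L‖ = S * G / absDisc K ^ (1 / 2 : ℝ) →
      S ≤ absDisc K ^ (1 + Real.log (Real.pi / 2) / Real.pi + ε) * Real.exp (C * deg K)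

/-- **Main theorem.** For all `ε > 0`, `T` and `κ` there is a constant `C` such that the inequalities
hold for all elliptic curves `E : y² = x³ + a x + b` over all number fields `K` (of any degree) which
satisfy the conjecture of Hasse-Weil. -/
theorem result : ∀ ε T κ : ℝ, 0 < ε → ∃ C : ℝ, ∀ (K : Type) [Field K] [NumberField K]
    (a b : 𝓞 K) (A : ℝ) (L : ℂ → ℂ), HasseWeil K a b A L → Bounds ε C T κ K A L := by
  intro ε T κ hε
  have hpi := Real.pi_gt_three
  have hpi4 := Real.pi_lt_four
  set q : ℝ := Real.log (Real.pi / 2) with hq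
  have hq0 : 0 ≤ q := Real.log_nonneg (by linarith)
  have hq1 : q ≤ 1 := by
    rw [hq, Real.log_le_iff_le_exp (by positivity)]
    have := Real.add_one_le_exp (1 : ℝ)
    linarith
  obtain ⟨C₁, hC₁, hu⟩ := Pool.Agent.H465.PT.universal (ε := ε / 4) (by positivity) |T|
  set C : ℝ := 10 * C₁ + 10 * |κ| + 10 * (C₁ * ε) + 10 * (|κ| * ε) with hC
  refine ⟨C, fun K _ _ a b A L h => ?_⟩
  have hc : Pool.Agent.H465.PT.HasseWeil K a b A L := by
    obtain ⟨c, e, hl, he⟩ := h.euler
    exact ⟨h.nonsingular, ⟨c, e, ⟨hl.good, hl.bad⟩, he⟩, h.entire, h.growth, h.pos, h.fe⟩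
  obtain ⟨h0, h1, h2⟩ := hu K a b A L hc
  have hdeg : (Module.finrank ℚ K : ℝ) = deg K := rfl
  rw [hdeg] at h0 h1 h2
  set n : ℝ := (deg K : ℝ) with hn
  have hn0 : 0 ≤ n := Nat.cast_nonneg _
  set x : ℝ := Real.log A with hx
  have hCe : C₁ * ε * n ≥ 0 := by positivity
  have hCn : C₁ * n ≥ 0 := by positivity
  have hκn : |κ| * n ≥ 0 := by positivity
  have hκe : |κ| * ε * n ≥ 0 := by positivity
  have hCC : C * n = 10 * (C₁ * n) + 10 * (|κ| * n) + 10 * (C₁ * ε * n) + 10 * (|κ| * ε * n) := by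
    rw [hC]; ring
  -- the error terms with `ε / 4` and with `ε`
  have hx1 : ε / 4 * x ≤ ε * x + C₁ * ε * n := by
    have h3 : 0 ≤ 3 / 4 * ε * (x + C₁ * n) := by
      have : 0 ≤ x + C₁ * n := by linarith
      positivity
    linarith
  have e0 : ∀ ρ : ℂ, (ρ - 1 / 2).re - 1 / 2 = ρ.re - 1 := fun ρ => by simp; ring
  have e0' : ∀ ρ : ℂ, (ρ - 1 / 2).im = ρ.im := fun ρ => by simp
  have hkern : ∀ ρ : ℂ, Pool.Agent.H465.PT.kern (ρ - 1 / 2) = kernel' ρ := by
    intro ρ
    unfold Pool.Agent.H465.PT.kern kernel'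
    rw [e0, e0']
  have hT0 : |(0 : ℝ)| ≤ |T| := by rw [abs_zero]; exact abs_nonneg _
  have hz : ∀ Z : Finset ℂ, InStrip Z → ∀ t : ℝ, |t| ≤ |T| →
      ∑ ρ ∈ Z, ord L ρ * kernel t ρ ≤ (1 / (2 * Real.pi) + ε / 4) * x + C₁ * n :=
    fun Z hZ t ht => h1 Z hZ t ht
  have hl : ∀ Z : Finset ℂ, InStrip Z → 1 ∉ Z →
      Real.log ‖lead L‖ + ∑ ρ ∈ Z, ord L ρ * kernel' ρ ≤
        (1 / 4 + ε / 4) * x + ord L 1 * q + C₁ * n := by
    intro Z hZ hZc
    have h3 := h2 Z hZ hZc
    simp only [hkern] at h3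
    exact h3
  have ho : ord L 1 ≤ (1 / (2 * Real.pi) + ε / 4) * x + C₁ * n := by
    have h3 := hz {1} (by
      intro ρ hρ
      rw [Finset.mem_singleton] at hρ
      rw [hρ]
      constructor <;> norm_num) 0 hT0
    rw [Finset.sum_singleton] at h3
    unfold kernel at h3
    simpa using h3
  have ho0 : 0 ≤ ord L 1 := Nat.cast_nonneg _
  have hls : Real.log ‖lead L‖ ≤ (1 / 4 + q / (2 * Real.pi) + ε / 2) * x + 2 * C₁ * n +
      C₁ * ε * n := by
    have h3 := hl ∅ (by intro ρ hρ; simp at hρ) (by simp)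
    rw [Finset.sum_empty, add_zero] at h3
    have h4 : ord L 1 * q ≤ q / (2 * Real.pi) * x + ε / 4 * (q * x) + C₁ * n * q := by
      calc ord L 1 * q ≤ ((1 / (2 * Real.pi) + ε / 4) * x + C₁ * n) * q :=
            mul_le_mul_of_nonneg_right ho hq0
        _ = _ := by ring
    have h5 : C₁ * n * q ≤ C₁ * n := by
      calc C₁ * n * q ≤ C₁ * n * 1 := mul_le_mul_of_nonneg_left hq1 (by positivity)
        _ = _ := by ring
    have h6 : ε / 4 * (q * x) ≤ ε / 4 * x + C₁ * ε * n := by
      have h7 : 0 ≤ (1 - q) * (x + C₁ * n) := mul_nonneg (by linarith) (by linarith)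
      have h8 : 0 ≤ q * (C₁ * n) := by positivity
      have h9 : q * x ≤ x + C₁ * n := by linarith
      have h10 := mul_le_mul_of_nonneg_left h9 (show 0 ≤ ε / 4 by positivity)
      linarith
    linarith
  have hlead : lead L ≠ 0 := by
    have hmer : MeromorphicAt L 1 := (h.entire.analyticAt 1).meromorphicAt
    refine hmer.meromorphicTrailingCoeffAt_ne_zero ?_
    rw [(h.entire.analyticAt _).meromorphicOrderAt_eq]
    intro h8
    rw [ENat.map_eq_top_iff] at h8
    exact Pool.Agent.H465.PT.order_ne_top h.entire (z₀ := 2) (hc.ne (by norm_num)) 1 h8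
  have hlp : 0 < ‖lead L‖ := norm_pos_iff.2 hlead
  refine ⟨fun Z hZ t ht => ?_, fun Z hZ hZc => ?_, ?_, ⟨hlead, ?_⟩, fun hA => ?_⟩
  · have h3 := hz Z hZ t (ht.trans (le_abs_self T))
    linarith
  · have h3 := hl Z hZ hZc
    linarith
  · linarith
  · rw [← Real.log_le_log_iff hlp (mul_pos (Real.rpow_pos_of_pos h.pos _) (Real.exp_pos _)),
      Real.log_mul (Real.rpow_pos_of_pos h.pos _).ne' (Real.exp_ne_zero _), Real.log_rpow h.pos,
      Real.log_exp]
    have h3 : ε / 2 * x ≤ ε * x + 2 * (C₁ * ε * n) := by linarith [hx1]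
    linarith
  · set D : ℝ := absDisc K with hD
    have hD1 : 1 ≤ D := by
      have h3 := discr_ne_zero K
      have h4 : (1 : ℤ) ≤ |discr K| := Int.one_le_abs h3
      rw [hD]
      unfold absDisc
      exact_mod_cast h4
    have hD0 : 0 < D := by linarith
    set y : ℝ := Real.log D with hy
    have hy0 : 0 ≤ y := Real.log_nonneg hD1
    have hxy : x ≤ |κ| * n + 2 * y := by
      have h3 := Real.log_le_log h.pos hA
      rw [Real.log_mul (Real.exp_ne_zero _) (by positivity), Real.log_exp, Real.log_pow] at h3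
      push_cast at h3
      have h4 : κ * n ≤ |κ| * n := mul_le_mul_of_nonneg_right (le_abs_self _) hn0
      linarith
    have hstep : ∀ p : ℝ, 0 ≤ p → p ≤ 1 + ε / 2 → p * x ≤ 2 * p * y + |κ| * n + |κ| * ε * n := by
      intro p hp hp1
      have h3 := mul_le_mul_of_nonneg_left hxy hp
      have h4 : p * (|κ| * n) ≤ (1 + ε / 2) * (|κ| * n) := mul_le_mul_of_nonneg_right hp1 (by positivity)
      have h5 : (1 + ε / 2) * (|κ| * n) = |κ| * n + |κ| * ε * n / 2 := by ring
      have h6 : p * (|κ| * n + 2 * y) = p * (|κ| * n) + 2 * p * y := by ring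
      linarith
    have hpi2 : 1 / (2 * Real.pi) ≤ 1 / 6 := by
      refine div_le_div_of_nonneg_left (by norm_num) (by norm_num) (by linarith)
    have hpi0 : 0 ≤ 1 / (2 * Real.pi) := by positivity
    refine ⟨?_, fun S G hG hS => ?_⟩
    · have h3 := hstep (1 / (2 * Real.pi) + ε / 4) (by positivity) (by linarith)
      have h4 : 2 * (1 / (2 * Real.pi) + ε / 4) * y = (1 / Real.pi + ε / 2) * y := by
        field_simp
        ring
      have h5 : ε / 2 * y ≤ ε * y := mul_le_mul_of_nonneg_right (by linarith) hy0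
      linarith
    · have hG0 : 0 < G := (Real.exp_pos _).trans_le hG
      have hD2 : 0 < D ^ (1 / 2 : ℝ) := Real.rpow_pos_of_pos hD0 _
      have h3 : S = ‖lead L‖ * D ^ (1 / 2 : ℝ) / G := by
        rw [hS]
        field_simp
      have hS0 : 0 < S := by rw [h3]; positivity
      have h4 : Real.log S = Real.log ‖lead L‖ + 1 / 2 * y - Real.log G := by
        rw [h3, Real.log_div (by positivity) hG0.ne', Real.log_mul hlp.ne' hD2.ne',
          Real.log_rpow hD0]
      have h5 := Real.log_le_log (Real.exp_pos _) hG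
      rw [Real.log_exp] at h5
      have h6 : κ * n ≤ |κ| * n := mul_le_mul_of_nonneg_right (le_abs_self _) hn0
      have hq2 : q / (2 * Real.pi) ≤ 1 / 6 := by
        calc q / (2 * Real.pi) ≤ 1 / (2 * Real.pi) := by gcongr
          _ ≤ 1 / 6 := hpi2
      have hq3 : 0 ≤ q / (2 * Real.pi) := by positivity
      have h7 := hstep (1 / 4 + q / (2 * Real.pi) + ε / 2) (by positivity) (by linarith)
      have h8 : 2 * (1 / 4 + q / (2 * Real.pi) + ε / 2) * y =
          (1 / 2 + q / Real.pi + ε) * y := by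
        field_simp
        ring
      rw [← Real.log_le_log_iff hS0 (mul_pos (Real.rpow_pos_of_pos hD0 _) (Real.exp_pos _)),
        Real.log_mul (Real.rpow_pos_of_pos hD0 _).ne' (Real.exp_ne_zero _), Real.log_rpow hD0,
        Real.log_exp, h4]
      linarith

end Pool.Agent.Results.MP_f50388_nt.UniversalBounds
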